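import Pool.Graph.R_pool_sql_team_seeded_f72693b1.W206.CT.Stm
import Pool.Graph.R_seed8.Helper834.EC.Dim1
import Pool.Graph.R_pool_sql_team_seeded_1acbe0a2.Y645.UG.FinG
import Pool.Graph.R_pool_sql_team_seeded_1acbe0a2.Y390.UG.TDg
import Pool.Graph.R_pool_sql_team_seeded_1acbe0a2.Y363.UG.Noe
import Pool.Graph.R_pool_sql_team_seeded_1acbe0a2.Y74.UG.Sub
import Pool.Graph.R_pool_sql_team_seeded_1acbe0a2.Y77.UG.ZIL1
import Pool.Graph.R_pool_sql_team_seeded_1acbe0a2.Y331.UL.Noe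
import Pool.Graph.R_pool_sql_team_seeded_1acbe0a2.Y388.UL.Spc
import Pool.Graph.R_pool_sql_team_seeded_1acbe0a2.Y79.UL.SelNull
import Pool.Graph.R_pool_sql_team_seeded_1acbe0a2.Y949.UL.Dim
import Pool.Graph.R_pool_sql_team_seeded_1acbe0a2.Y153.UL.Tor
import Pool.Graph.R_pool_sql_team_seeded_1acbe0a2.Y363.UL.Ext

/-!
# From the frozen form of Zilber's conjecture to the finiteness for all closed subsets
-/

set_option autoImplicit false
set_option linter.unusedSectionVars false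

namespace Pool.Agent.Helper5.GZ

open MvPolynomial Module Pool.Agent.Y645.UL

/-- the dimension is the Krull dimension -/
theorem krull_eq_dimT {n : ℕ} (Y : Set (Fin n → ℂˣ)) (hY : (van Y).IsPrime) :
    ringKrullDim (MvPolynomial (Fin n) ℂ ⧸ van Y) = (dimT Y : WithBot ℕ∞) := by
  have := hY
  obtain ⟨s, h1, h2⟩ := Pool.Agent.Helper834.EC.exists_ringKrullDim_eq_trdeg ℂ
    (MvPolynomial (Fin n) ℂ ⧸ van Y)
  rw [h1, dimT, h2, Cardinal.toNat_natCast]

theorem finrank_rel_le {ι : Type} [Fintype ι] (A : Set (ι → ℂˣ)) :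
    finrank ℤ (rel A) ≤ Fintype.card ι := by
  have := Submodule.finrank_le (rel A)
  rwa [Module.finrank_pi] at this

theorem IsClosedT.mem_iff {ι : Type} {A : Set (ι → ℂˣ)} (h : IsClosedT A) (x : ι → ℂˣ) :
    x ∈ A ↔ ∀ f ∈ van A, eval (fun j => (x j : ℂ)) f = 0 := by
  constructor
  · intro hx f hf
    exact hf x hx
  · intro hx
    obtain ⟨J, hJ⟩ := h
    rw [hJ]
    intro f hf
    refine hx f ?_
    intro y hy
    rw [hJ] at hy
    exact hy f hf

/-- the form for subvarieties in the coordinates `Fin n` -/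
theorem zil_fin (hZ : Pool.Agent.W206.CT.Zil) {n : ℕ} (Y : Set (Fin n → ℂˣ)) (hY : IsSubvar Y)
    (hd : ∀ f : MvPolynomial (Fin n) ℂ,
      (∀ x ∈ Y, dimT Y < finrank ℤ (rel {x}) → eval (fun j => (x j : ℂ)) f = 0) →
      ∀ x ∈ Y, eval (fun j => (x j : ℂ)) f = 0) : rel Y ≠ ⊥ := by
  have hp := hY.2
  have hmem : ∀ x : Fin n → ℂ, (h0 : ∀ i, x i ≠ 0) → (∀ g ∈ van Y, eval x g = 0) →
      (fun i => Units.mk0 (x i) (h0 i)) ∈ Y := by
    intro x h0 hx
    rw [IsClosedT.mem_iff hY.1]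
    exact hx
  have hz1 : (∏ i : Fin n, (MvPolynomial.X i : MvPolynomial (Fin n) ℂ)) ∉ van Y := by
    intro h
    obtain ⟨i, -, hi⟩ := (hp.prod_mem_iff).1 h
    exact X_notMem_van hp i hi
  obtain ⟨a, ha0, ha⟩ := hZ n (van Y) hp hz1 (by
    intro f hf x h0 hx
    refine hd f (fun y hy hlt => ?_) (fun i => Units.mk0 (x i) (h0 i)) (hmem x h0 hx)
    have h1 := finrank_rel_le ({y} : Set (Fin n → ℂˣ))
    rw [Fintype.card_fin] at h1
    have h2 : dimT Y + (n - finrank ℤ (rel {y})) + 1 ≤ n := by omega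
    have h3 : ringKrullDim (MvPolynomial (Fin n) ℂ ⧸ van Y)
              + ((n - Module.finrank ℤ (rel {y}) : ℕ) : WithBot ℕ∞) + 1 ≤
              (n : WithBot ℕ∞) := by
      rw [krull_eq_dimT Y hp]
      exact_mod_cast h2
    have h4 : ∀ a ∈ rel {y}, ∏ i : Fin n, (y i : ℂ) ^ a i = 1 := by
      intro a ha
      have h1 := ha y rfl
      have h2 := congrArg (Units.val) h1
      push_cast at h2
      exact h2
    exact hf (fun i => (y i : ℂ)) (fun i => (y i).ne_zero) (fun g hg => hg y hy)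
      ⟨rel {y}, h3, h4⟩)
  intro hb
  apply ha0
  have h1 : a ∈ rel Y := by
    intro y hy
    have h2 := ha (fun i => (y i : ℂ)) (fun i => (y i).ne_zero) (fun g hg => hg y hy)
    apply Units.ext
    push_cast
    exact h2
  rw [hb] at h1
  exact h1

/-- the form for subvarieties in arbitrary coordinates -/
theorem zil_all (hZ : Pool.Agent.W206.CT.Zil) (c : ℕ) : Pool.Agent.Y645.UG.Zil ℂ c := by
  intro ι _ Y hY _ hd
  classical
  let e := Fintype.equivFin ι
  let Y' : Set (Fin (Fintype.card ι) → ℂˣ) := {x | (fun j => x (e j)) ∈ Y}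
  have hYY : ∀ y : ι → ℂˣ, y ∈ Y → (fun i => y (e.symm i)) ∈ Y' := by
    intro y hy
    show (fun j => y (e.symm (e j))) ∈ Y
    simpa using hy
  have hback : ∀ x : Fin (Fintype.card ι) → ℂˣ, (fun i => (fun j => x (e j)) (e.symm i)) = x := by
    intro x
    funext i
    simp
  have hev : ∀ (x : Fin (Fintype.card ι) → ℂˣ) (f : MvPolynomial ι ℂ),
      eval (fun i => (x i : ℂ)) (rename e f) = eval (fun j => (x (e j) : ℂ)) f := by
    intro x f
    rw [eval_rename]
    rfl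
  have hev2 : ∀ (y : ι → ℂˣ) (f : MvPolynomial (Fin (Fintype.card ι)) ℂ),
      eval (fun i => (y i : ℂ)) (rename e.symm f) = eval (fun j => (y (e.symm j) : ℂ)) f := by
    intro y f
    rw [eval_rename]
    rfl
  have hvan : ∀ f : MvPolynomial (Fin (Fintype.card ι)) ℂ, f ∈ van Y' ↔
      rename e.symm f ∈ van Y := by
    intro f
    constructor
    · intro hf y hy
      rw [hev2]
      exact hf _ (hYY y hy)
    · intro hf x hx
      have h1 := hf _ hx
      rw [hev2] at h1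
      simpa using h1
  obtain ⟨L, _, _, y, hy⟩ := Pool.Agent.Y331.UL.t_GEN ℂ ι (van Y) hY.2 (X_notMem_van hY.2)
  have hy' : ∀ f : MvPolynomial (Fin (Fintype.card ι)) ℂ, f ∈ van Y' ↔
      aeval (fun i => (y (e.symm i) : L)) f = 0 := by
    intro f
    rw [hvan, hy, aeval_rename]
    rfl
  have hd1 := Pool.Agent.Y949.UL.t_DIM ℂ L ι y Y hy
  have hd2 := Pool.Agent.Y949.UL.t_DIM ℂ L _ (fun i => y (e.symm i)) Y' hy'
  have hdd : dimT Y' = dimT Y := by
    rw [hd1, hd2]
    unfold tdu td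
    congr 2
    ext z
    constructor
    · rintro ⟨i, rfl⟩
      exact ⟨e.symm i, rfl⟩
    · rintro ⟨j, rfl⟩
      exact ⟨e j, by simp⟩
  have hY' : IsSubvar Y' := by
    constructor
    · obtain ⟨J, hJ⟩ := hY.1
      refine ⟨(rename e) '' J, ?_⟩
      ext x
      show (fun j => x (e j)) ∈ Y ↔ _
      rw [hJ]
      constructor
      · rintro hx _ ⟨f, hf, rfl⟩
        rw [hev]
        exact hx f hf
      · intro hx f hf
        have h1 := hx _ ⟨f, hf, rfl⟩
        rw [hev] at h1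
        exact h1
    · have h3 : van Y' = RingHom.ker (aeval (fun i => (y (e.symm i) : L)) :
          MvPolynomial (Fin (Fintype.card ι)) ℂ →ₐ[ℂ] L) := by
        ext f
        rw [RingHom.mem_ker]
        exact hy' f
      rw [h3]
      exact RingHom.ker_isPrime _
  -- the relations
  let T : (Fin (Fintype.card ι) → ℤ) ≃ₗ[ℤ] (ι → ℤ) := LinearEquiv.funCongrLeft ℤ ℤ e
  have hT : ∀ a j, T a j = a (e j) := fun a j => rfl
  have hrel1 : ∀ (A : Set (ι → ℂˣ)) (A' : Set (Fin (Fintype.card ι) → ℂˣ)),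
      (∀ x, x ∈ A' ↔ (fun j => x (e j)) ∈ A) → ∀ a, a ∈ rel A' ↔ T a ∈ rel A := by
    intro A A' hAA a
    constructor
    · intro ha y hy
      have h1 := ha (fun i => y (e.symm i)) (by rw [hAA]; simpa using hy)
      rw [← h1]
      refine Fintype.prod_equiv e _ _ fun j => ?_
      rw [hT, Equiv.symm_apply_apply]
    · intro ha x hx
      have h1 := ha _ ((hAA x).1 hx)
      rw [← h1]
      refine (Fintype.prod_equiv e _ _ fun j => ?_).symm
      rw [hT]
  have hrank : ∀ (A : Set (ι → ℂˣ)) (A' : Set (Fin (Fintype.card ι) → ℂˣ)),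
      (∀ x, x ∈ A' ↔ (fun j => x (e j)) ∈ A) → finrank ℤ (rel A') = finrank ℤ (rel A) := by
    intro A A' hAA
    have h1 : (rel A').map (T : (Fin (Fintype.card ι) → ℤ) →ₗ[ℤ] (ι → ℤ)) = rel A := by
      ext b
      rw [Submodule.mem_map]
      constructor
      · rintro ⟨a, ha, rfl⟩
        exact (hrel1 A A' hAA a).1 ha
      · intro hb
        refine ⟨T.symm b, ?_, by simp⟩
        rw [hrel1 A A' hAA]
        simpa using hb
    rw [← h1]
    exact (LinearEquiv.finrank_map_eq T _).symm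
  have hmain := zil_fin hZ Y' hY' (by
    intro f hf x hx
    have h1 := hd (rename e.symm f) (fun y hy hlt => ?_) _ hx
    · rw [hev2] at h1
      simpa using h1
    · rw [hev2]
      refine hf _ (hYY y hy) ?_
      rw [hdd, hrank {y}]
      · exact hlt
      · intro x'
        rw [Set.mem_singleton_iff, Set.mem_singleton_iff]
        constructor
        · rintro rfl
          funext j
          simp
        · rintro rfl
          funext j
          simp)
  intro hb
  apply hmain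
  rw [Submodule.eq_bot_iff]
  intro a ha
  have h1 := (hrel1 Y Y' (fun x => Iff.rfl) a).1 ha
  rw [hb, Submodule.mem_bot] at h1
  exact T.map_eq_zero_iff.1 h1

/-- finiteness for all closed subsets of all tori -/
theorem finDef_of_zil (hZ : Pool.Agent.W206.CT.Zil) (ι : Type) [Fintype ι] (W : Set (ι → ℂˣ))
    (hW : IsClosedT W) (δ : ℕ) : FinDef W (δ : ℤ) := by
  have hTOR := Pool.Agent.Y153.UL.t_TOR Pool.Agent.Y363.UL.t_EXT
  have hP : Pool.Agent.Y645.UG.PPg ℂ (δ + 1) :=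
    Pool.Agent.Y77.UG.t_ZIL1 Pool.Agent.Y74.UG.t_SUB hTOR Pool.Agent.Y79.UL.t_NULL
      Pool.Agent.Y949.UL.t_DIM Pool.Agent.Y388.UL.t_REL Pool.Agent.Y390.UG.t_TDg
      ℂ (δ + 1) (zil_all hZ (δ + 1))
  exact Pool.Agent.Y645.UG.FinDef_of_AAg Pool.Agent.Y388.UL.t_REL Pool.Agent.Y949.UL.t_DIM
    Pool.Agent.Y331.UL.t_GEN Pool.Agent.Y79.UL.t_NULL ℂ (δ + 1)
    (Pool.Agent.Y363.UG.t_Ag Pool.Agent.Y331.UL.t_GEN ℂ (δ + 1) hP) ι W δ (Nat.lt_succ_self δ) hW

/-- the sum of the dimension and of the number of the relations is at most the number of the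
coordinates -/
theorem dim_add_rank_le {ι : Type} [Fintype ι] {A : Set (ι → ℂˣ)} (hA : IsSubvar A) :
    dimT A + finrank ℤ (rel A) ≤ Fintype.card ι := by
  obtain ⟨L, _, _, y, hy⟩ := Pool.Agent.Y331.UL.t_GEN ℂ ι (van A) hA.2 (X_notMem_van hA.2)
  rw [Pool.Agent.Y949.UL.t_DIM ℂ L ι y A hy, Pool.Agent.Y388.UL.t_REL ℂ L ι y A hy]
  have h1 := Pool.Agent.Y390.UG.t_TDg ℂ L ι Empty y (fun m => m.elim)
  have h2 := mrk_add y
  have h3 : ∀ u : Empty → Lˣ, tdu ℂ u = 0 := by
    intro u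
    have := td_le_card (k := ℂ) (fun m : Empty => (u m : L))
    rw [Fintype.card_empty] at this
    exact Nat.le_zero.1 this
  rw [h3] at h1
  omega

/-- atypical subvarieties of a closed subset lie in finitely many of them -/
theorem finAtypical_of_zil (hZ : Pool.Agent.W206.CT.Zil) (ι : Type) [Fintype ι]
    (W : Set (ι → ℂˣ)) (hW : IsClosedT W) :
    ∃ 𝒜 : Set (Set (ι → ℂˣ)), 𝒜.Finite ∧
      (∀ A ∈ 𝒜, IsSubvar A ∧ A ⊆ W ∧ dimT W < dimT A + finrank ℤ (rel A)) ∧
      ∀ A, (IsSubvar A ∧ A ⊆ W ∧ dimT W < dimT A + finrank ℤ (rel A)) → ∃ B ∈ 𝒜, A ⊆ B := by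
  by_cases h : Fintype.card ι ≤ dimT W
  · refine ⟨∅, Set.finite_empty, fun A hA => absurd hA (Set.notMem_empty A), ?_⟩
    rintro A ⟨h1, -, h2⟩
    have := dim_add_rank_le h1
    omega
  · push Not at h
    obtain ⟨𝒜, h1, h2, h3⟩ := finDef_of_zil hZ ι W hW (Fintype.card ι - dimT W - 1)
    refine ⟨𝒜, h1, fun A hA => ?_, ?_⟩
    · obtain ⟨h4, h5, h6⟩ := h2 A hA
      refine ⟨h4, h5, ?_⟩
      rw [defect] at h6
      omega
    · rintro A ⟨h4, h5, h6⟩
      refine h3 A h4 h5 ?_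
      rw [defect]
      omega

end Pool.Agent.Helper5.GZ
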