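import Pool.Agent.Helper5.GZ.Tri
import Pool.Agent.Helper5.GZ.ZilA
import Pool.Graph.R_pool_sql_team_seeded_f72693b1.W206.CT.CO

/-!
# From a linear subvariety with triangles to the powers of the line
-/

set_option autoImplicit false
set_option linter.unusedSectionVars false

namespace Pool.Agent.Helper5.GZ

open MvPolynomial Module Pool.Agent.Y645.UL
open Pool.Agent.W206.CT (chr TrGe AtypPt)

variable {V E : Type} [Fintype V] [Fintype E] {k : ℕ}

theorem trGe_td {ι L : Type} [Fintype ι] [Field L] [Algebra ℂ L] (ω : ι → L) :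
    TrGe ℂ ω (td ℂ ω) := by
  classical
  obtain ⟨B, hB1, hB2, -⟩ := exists_basis (k := ℂ) ω
  let e : Fin (td ℂ ω) ≃ B := (finCongr (by rw [Fintype.card_coe, hB1])).trans
    (Fintype.equivFin B).symm
  refine ⟨fun j => ω (e j), hB2.comp e e.injective, fun j => ?_⟩
  exact IntermediateField.subset_adjoin _ _ ⟨_, rfl⟩

/-- pull back of polynomials in the ratios -/
theorem exists_pull (τ : Fin k × Fin 3 → E) (s : Fin k × Fin 3 → ℂ)
    (f : MvPolynomial (Fin k) ℂ) : ∃ g : MvPolynomial E ℂ,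
      ∀ (L : Type) [Field L] [Algebra ℂ L] (y : E → Lˣ),
      aeval (fun e => (y e : L)) g = 0 ↔ aeval (zt τ s (fun e => (y e : L))) f = 0 := by
  classical
  obtain ⟨g, hg⟩ := Pool.Agent.Y331.UL.t_PULL ℂ E E (Fin k) X
    (fun i => Pi.single (τ (i, 1)) 1 - Pi.single (τ (i, 0)) 1)
    (aeval (fun i => C (s (i, 1) * s (i, 0)) * X i) f)
  refine ⟨g, fun L _ _ y => ?_⟩
  rw [hg L y y (fun n => by rw [aeval_X])]
  have h1 : aeval (fun i => ((mon y (Pi.single (τ (i, 1)) 1 - Pi.single (τ (i, 0)) 1) : Lˣ) : L))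
      (aeval (fun i : Fin k => C (s (i, 1) * s (i, 0)) * X i) f : MvPolynomial (Fin k) ℂ) =
      aeval (zt τ s (fun e => (y e : L))) f := by
    have h2 : ((aeval (fun i => ((mon y (Pi.single (τ (i, 1)) 1 - Pi.single (τ (i, 0)) 1) : Lˣ) : L))
      : MvPolynomial (Fin k) ℂ →ₐ[ℂ] L).comp
      (aeval (fun i : Fin k => C (s (i, 1) * s (i, 0)) * X i))) =
      aeval (zt τ s (fun e => (y e : L))) := by
      refine MvPolynomial.algHom_ext fun i => ?_
      rw [AlgHom.comp_apply, aeval_X, aeval_X, map_mul, algHom_C, aeval_X, mon_sub, mon_single,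
        mon_single, zpow_one, zpow_one, Units.val_div_eq_div_val]
      rfl
    rw [← h2]
    rfl
  rw [h1]

/-- the ideal of the image of `A` under the ratios -/
noncomputable def PA (τ : Fin k × Fin 3 → E) (s : Fin k × Fin 3 → ℂ) (A : Set (E → ℂˣ)) :
    Ideal (MvPolynomial (Fin k) ℂ) where
  carrier := {f | ∀ y ∈ A, eval (zt τ s (fun e => (y e : ℂ))) f = 0}
  add_mem' := by
    intro f g hf hg x hx
    rw [map_add, hf x hx, hg x hx, add_zero]
  zero_mem' := by
    intro x _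
    exact map_zero _
  smul_mem' := by
    intro c f hf x hx
    rw [smul_eq_mul, map_mul, hf x hx, mul_zero]

theorem exists_pull_van (τ : Fin k × Fin 3 → E) (s : Fin k × Fin 3 → ℂ)
    (f : MvPolynomial (Fin k) ℂ) : ∃ g : MvPolynomial E ℂ,
      (∀ A : Set (E → ℂˣ), f ∈ PA τ s A ↔ g ∈ van A) ∧
      ∀ (L : Type) [Field L] [Algebra ℂ L] (y : E → Lˣ),
      aeval (fun e => (y e : L)) g = 0 ↔ aeval (zt τ s (fun e => (y e : L))) f = 0 := by
  obtain ⟨g, hg⟩ := exists_pull τ s f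
  refine ⟨g, fun A => ?_, hg⟩
  constructor
  · intro hf y hy
    exact (hg ℂ y).2 (hf y hy)
  · intro hf y hy
    exact (hg ℂ y).1 (hf y hy)

theorem PA_eq_ker (τ : Fin k × Fin 3 → E) (s : Fin k × Fin 3 → ℂ) {A : Set (E → ℂˣ)} {L : Type}
    [Field L] [Algebra ℂ L] {y : E → Lˣ}
    (hy : ∀ f : MvPolynomial E ℂ, f ∈ van A ↔ aeval (fun e => (y e : L)) f = 0) :
    PA τ s A = RingHom.ker (aeval (zt τ s (fun e => (y e : L))) :
      MvPolynomial (Fin k) ℂ →ₐ[ℂ] L) := by
  ext f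
  obtain ⟨g, hg1, hg2⟩ := exists_pull_van τ s f
  rw [hg1, hy, hg2, RingHom.mem_ker]

/-- the dimension of the fibres of the ratios -/
theorem td_le_ratio {L : Type} [Field L] [Algebra ℂ L] {τ : Fin k × Fin 3 → E}
    {s : Fin k × Fin 3 → ℂ} (hτ : Function.Injective τ) (hs : ∀ u, s u = 1 ∨ s u = -1)
    (y : E → L) (hy0 : ∀ e, y e ≠ 0) (B : Finset E)
    (hB : ∀ i, τ (i, 0) ∈ B ∧ τ (i, 1) ∈ B)
    (lam : E → B → ℂ) (h : ∀ e, y e = ∑ b : B, algebraMap ℂ L (lam e b) * y b) :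
    td ℂ y + k ≤ td ℂ (zt τ s y) + B.card := by
  classical
  obtain ⟨I, hI1, -, hI3⟩ := exists_basis (k := ℂ) (zt τ s y)
  let R : Finset E := Finset.univ.image fun i : Fin k => τ (i, 1)
  have hRB : R ⊆ B := by
    intro e he
    obtain ⟨i, -, rfl⟩ := Finset.mem_image.1 he
    exact (hB i).2
  have hRc : R.card = k := by
    rw [Finset.card_image_of_injective, Finset.card_univ, Fintype.card_fin]
    intro i j hij
    exact congrArg Prod.fst (hτ hij)
  let B' : Finset E := B \ R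
  have hB'c : B'.card + k = B.card := by
    rw [← hRc]
    exact Finset.card_sdiff_add_card_eq_card hRB
  let w : I ⊕ B' → L := Sum.elim (fun i => zt τ s y i) (fun b => y b)
  have h1 : td ℂ y ≤ td ℂ w := by
    refine td_le_of_alg fun e => ?_
    let S : Set L := Set.range (zt τ s y) ∪ (fun b : B' => y b) '' Set.univ
    have hS : ∀ z ∈ S, IsAlgebraic (Algebra.adjoin ℂ (Set.range w)) z := by
      rintro z (⟨i, rfl⟩ | ⟨b, -, rfl⟩)
      · refine alg_mono ?_ (hI3 i)
        rintro _ ⟨j, hj, rfl⟩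
        exact ⟨Sum.inl ⟨j, hj⟩, rfl⟩
      · exact alg_self ⟨Sum.inr b, rfl⟩
    have hb' : ∀ b ∈ B, b ∉ R → y b ∈ Algebra.adjoin ℂ S := by
      intro b hb hbR
      exact Algebra.subset_adjoin (Or.inr ⟨⟨b, Finset.mem_sdiff.2 ⟨hb, hbR⟩⟩, trivial, rfl⟩)
    have hb : ∀ b ∈ B, y b ∈ Algebra.adjoin ℂ S := by
      intro b hb
      by_cases hbR : b ∈ R
      · obtain ⟨i, -, rfl⟩ := Finset.mem_image.1 hbR
        have h0 : y (τ (i, 0)) ∈ Algebra.adjoin ℂ S := by
          refine hb' _ (hB i).1 ?_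
          intro h2
          obtain ⟨j, -, hj⟩ := Finset.mem_image.1 h2
          have h3 := congrArg Prod.snd (hτ hj)
          simp at h3
        have hz : zt τ s y i ∈ Algebra.adjoin ℂ S := Algebra.subset_adjoin (Or.inl ⟨i, rfl⟩)
        have h4 : y (τ (i, 1)) = algebraMap ℂ L (s (i, 1) * s (i, 0)) *
            (zt τ s y i * y (τ (i, 0))) := by
          have h5 := sq_of_sign (K := L) (hs (i, 1)) (hs (i, 0))
          have h6 := hy0 (τ (i, 0))
          rw [zt]
          field_simp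
          rw [h5, mul_one]
        rw [h4]
        exact Subalgebra.mul_mem _ (Subalgebra.algebraMap_mem _ _) (Subalgebra.mul_mem _ hz h0)
      · exact hb' b hb hbR
    have h2 : y e ∈ Algebra.adjoin ℂ S := by
      rw [h e]
      exact Subalgebra.sum_mem _ fun b _ => Subalgebra.mul_mem _
        (Subalgebra.algebraMap_mem _ _) (hb b b.2)
    exact alg_trans hS (isAlgebraic_algebraMap (⟨_, h2⟩ : Algebra.adjoin ℂ S))
  have h2 := td_le_card (k := ℂ) w
  rw [Fintype.card_sum, Fintype.card_coe, Fintype.card_coe, hI1] at h2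
  omega

/-- the image of an atypical subvariety is atypical -/
theorem atyp_image {M : (V → ℂ) →ₗ[ℂ] (E → ℂ)} (hM : ∀ e, ∃ x, M x e ≠ 0)
    {τ : Fin k × Fin 3 → E} {s : Fin k × Fin 3 → ℂ} (hτ : Function.Injective τ)
    (hs : ∀ u, s u = 1 ∨ s u = -1)
    (ht : ∀ x i, s (i, 0) * M x (τ (i, 0)) - s (i, 1) * M x (τ (i, 1)) =
      s (i, 2) * M x (τ (i, 2)))
    {B : Finset E} (hB : SurjOn M B) {lam : E → B → ℂ}
    (hlam : ∀ x e, M x e = ∑ b, lam e b * M x b) (hBt : ∀ i, τ (i, 0) ∈ B ∧ τ (i, 1) ∈ B)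
    {A : Set (E → ℂˣ)} (hA1 : IsSubvar A) (hA2 : A ⊆ SM M)
    (hA3 : dimT (SM M) < dimT A + finrank ℤ (rel A)) (hA4 : ∀ a ∈ rel A, TriExp τ a) :
    Pool.Agent.W206.CT.Atypical k (PA τ s A) := by
  classical
  obtain ⟨L, _, _, y, hy⟩ := Pool.Agent.Y331.UL.t_GEN ℂ E (van A) hA1.2 (X_notMem_van hA1.2)
  rw [PA_eq_ker τ s hy]
  refine Pool.Agent.W206.CT.Atypical_of_atyp Pool.Agent.W206.CT.t_co ?_
  have htL : ∀ i, algebraMap ℂ L (s (i, 0)) * y (τ (i, 0)) -
      algebraMap ℂ L (s (i, 1)) * y (τ (i, 1)) = algebraMap ℂ L (s (i, 2)) * y (τ (i, 2)) := by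
    intro i
    have h1 := (hy (C (s (i, 0)) * X (τ (i, 0)) - C (s (i, 1)) * X (τ (i, 1)) -
      C (s (i, 2)) * X (τ (i, 2)))).1 (by
        intro u hu
        obtain ⟨x, hx⟩ := hA2 hu
        simp only [map_sub, map_mul, eval_C, eval_X, hx]
        rw [ht x i, sub_self])
    simp only [map_sub, map_mul, algHom_C, aeval_X] at h1
    exact sub_eq_zero.1 h1
  have hlin : ∀ e, (y e : L) = ∑ b : B, algebraMap ℂ L (lam e b) * (y b : L) := by
    intro e
    exact lin_of_van (fun x => hlam x e) hA2 (y := fun e => (y e : L)) (fun f hf => (hy f).1 hf)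
  have hrel := Pool.Agent.Y388.UL.t_REL ℂ L E y A hy
  have hdim := Pool.Agent.Y949.UL.t_DIM ℂ L E y A hy
  rw [dimT_SM hM hB hlam] at hA3
  refine ⟨fun i => zt_ne hs (fun e => (y e).ne_zero) (htL i), td ℂ (zt τ s fun e => (y e : L)),
    (rel A).map (psiE τ), trGe_td _, ?_, ?_⟩
  · rintro _ ⟨a, ha, rfl⟩
    refine chr_psiE hτ hs htL (hA4 a ha) ?_
    rw [← hrel]
    exact ha
  · have h1 : finrank ℤ (rel A) ≤ finrank ℤ ((rel A).map (psiE τ)) := by
      refine LinearMap.finrank_le_finrank_of_injective (f := (psiE τ).submoduleMap (rel A)) ?_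
      rw [injective_iff_map_eq_zero]
      intro a ha
      have h2 : psiE τ (a : E → ℤ) = 0 := congrArg Subtype.val ha
      exact Subtype.ext (psiE_inj (hA4 a a.2) h2)
    have h2 := td_le_ratio hτ hs (fun e => (y e : L)) (fun e => (y e).ne_zero) B hBt lam hlin
    have h3 : dimT A = td ℂ (fun e => (y e : L)) := hdim
    rw [Fintype.card_fin]
    omega

end Pool.Agent.Helper5.GZ
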