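import Pool.Agent.Helper5.GZ.Main

/-!
# Graphs with disjoint triangles
-/

set_option autoImplicit false
set_option linter.unusedSectionVars false

namespace Pool.Agent.Helper5.GZ

open MvPolynomial Module Pool.Agent.Y645.UL
open Pool.Agent.W206.CT (chr TrGe AtypPt)

/-- the edges of a graph, directed from the smaller to the larger end -/
abbrev Edge {n : ℕ} (G : SimpleGraph (Fin n)) : Type :=
  {e : Fin n × Fin n // e.1 < e.2 ∧ G.Adj e.1 e.2}

noncomputable instance instFintypeEdge {n : ℕ} (G : SimpleGraph (Fin n)) : Fintype (Edge G) :=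
  Fintype.ofFinite _

/-- the differences along the edges -/
def Dm {n : ℕ} (G : SimpleGraph (Fin n)) : (Fin n → ℂ) →ₗ[ℂ] (Edge G → ℂ) where
  toFun x e := x e.1.2 - x e.1.1
  map_add' x y := by
    funext e
    simp only [Pi.add_apply]
    ring
  map_smul' c x := by
    funext e
    simp only [Pi.smul_apply, smul_eq_mul, RingHom.id_apply]
    ring

variable {n : ℕ} {G : SimpleGraph (Fin n)}

theorem Dm_apply (x : Fin n → ℂ) (e : Edge G) : Dm G x e = x e.1.2 - x e.1.1 := rfl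

/-- the edge between two adjacent vertices -/
def ed (u v : Fin n) (h : G.Adj u v) : Edge G :=
  if hlt : u < v then ⟨(u, v), hlt, h⟩ else
    ⟨(v, u), lt_of_le_of_ne (not_lt.1 hlt) h.ne', h.symm⟩

/-- the sign of a directed edge -/
noncomputable def sg (u v : Fin n) : ℂ := if u < v then 1 else -1

theorem sg_cases (u v : Fin n) : sg u v = 1 ∨ sg u v = -1 := by
  rw [sg]
  split_ifs
  · exact Or.inl rfl
  · exact Or.inr rfl

theorem sg_mul (x : Fin n → ℂ) (u v : Fin n) (h : G.Adj u v) :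
    sg u v * Dm G x (ed u v h) = x v - x u := by
  rw [sg, ed, Dm_apply]
  split_ifs
  · rw [one_mul]
  · ring

theorem ed_ends (u v : Fin n) (h : G.Adj u v) :
    ((ed u v h).1.1 = u ∧ (ed u v h).1.2 = v) ∨ ((ed u v h).1.1 = v ∧ (ed u v h).1.2 = u) := by
  rw [ed]
  split_ifs
  · exact Or.inl ⟨rfl, rfl⟩
  · exact Or.inr ⟨rfl, rfl⟩

theorem ed_of_ends (e : Edge G) (u v : Fin n) (h : G.Adj u v)
    (he : (e.1.1 = u ∧ e.1.2 = v) ∨ (e.1.1 = v ∧ e.1.2 = u)) : ed u v h = e := by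
  have h1 := ed_ends u v h
  have h2 := (ed u v h).2.1
  have h3 := e.2.1
  apply Subtype.ext
  apply Prod.ext
  · rcases h1 with ⟨a1, a2⟩ | ⟨a1, a2⟩ <;> rcases he with ⟨b1, b2⟩ | ⟨b1, b2⟩
    · rw [a1, b1]
    · rw [a1, a2] at h2
      rw [b1, b2] at h3
      exact absurd h2 (not_lt.2 h3.le)
    · rw [a1, a2] at h2
      rw [b1, b2] at h3
      exact absurd h2 (not_lt.2 h3.le)
    · rw [a1, b1]
  · rcases h1 with ⟨a1, a2⟩ | ⟨a1, a2⟩ <;> rcases he with ⟨b1, b2⟩ | ⟨b1, b2⟩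
    · rw [a2, b2]
    · rw [a1, a2] at h2
      rw [b1, b2] at h3
      exact absurd h2 (not_lt.2 h3.le)
    · rw [a1, a2] at h2
      rw [b1, b2] at h3
      exact absurd h2 (not_lt.2 h3.le)
    · rw [a2, b2]

/-- the graph contains `k` disjoint triangles -/
def IsTri {k : ℕ} (G : SimpleGraph (Fin n)) (t : Fin k × Fin 3 → Fin n) : Prop :=
  Function.Injective t ∧ ∀ i a b, a ≠ b → G.Adj (t (i, a)) (t (i, b))

/-- the ends of the edges of a triangle -/
def ends (j : Fin 3) : Fin 3 × Fin 3 := ![(0, 1), (0, 2), (2, 1)] j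

theorem ends_ne (j : Fin 3) : (ends j).1 ≠ (ends j).2 := by
  fin_cases j <;> decide

theorem ends_inj (j j' : Fin 3) (h : ((ends j).1 = (ends j').1 ∧ (ends j).2 = (ends j').2) ∨
    ((ends j).1 = (ends j').2 ∧ (ends j).2 = (ends j').1)) : j = j' := by
  revert h
  fin_cases j <;> fin_cases j' <;> decide

theorem ends_surj (a b : Fin 3) (h : a ≠ b) : ∃ j, (a = (ends j).1 ∧ b = (ends j).2) ∨
    (a = (ends j).2 ∧ b = (ends j).1) := by
  revert h
  fin_cases a <;> fin_cases b <;> decide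

variable {k : ℕ} {t : Fin k × Fin 3 → Fin n}

/-- the edges of the triangles -/
def tauG (h : IsTri G t) (u : Fin k × Fin 3) : Edge G :=
  ed (t (u.1, (ends u.2).1)) (t (u.1, (ends u.2).2)) (h.2 _ _ _ (ends_ne u.2))

/-- the signs of the edges of the triangles -/
noncomputable def sgG (t : Fin k × Fin 3 → Fin n) (u : Fin k × Fin 3) : ℂ :=
  sg (t (u.1, (ends u.2).1)) (t (u.1, (ends u.2).2))

theorem tauG_inj (h : IsTri G t) : Function.Injective (tauG h) := by
  rintro ⟨i, j⟩ ⟨i', j'⟩ hij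
  have h1 := ed_ends _ _ (h.2 i _ _ (ends_ne j))
  have h2 := ed_ends _ _ (h.2 i' _ _ (ends_ne j'))
  have h3 : ed _ _ (h.2 i _ _ (ends_ne j)) = ed _ _ (h.2 i' _ _ (ends_ne j')) := hij
  rw [h3] at h1
  have key : ∀ a b a' b' : Fin 3, t (i, a) = t (i', a') → t (i, b) = t (i', b') →
      i = i' ∧ a = a' ∧ b = b' := by
    intro a b a' b' e1 e2
    have f1 := h.1 e1
    have f2 := h.1 e2
    exact ⟨congrArg Prod.fst f1, congrArg Prod.snd f1, congrArg Prod.snd f2⟩
  rcases h1 with ⟨a1, a2⟩ | ⟨a1, a2⟩ <;> rcases h2 with ⟨b1, b2⟩ | ⟨b1, b2⟩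
  · obtain ⟨c1, c2, c3⟩ := key _ _ _ _ (a1.symm.trans b1) (a2.symm.trans b2)
    exact Prod.ext c1 (ends_inj _ _ (Or.inl ⟨c2, c3⟩))
  · obtain ⟨c1, c2, c3⟩ := key _ _ _ _ (a1.symm.trans b1) (a2.symm.trans b2)
    exact Prod.ext c1 (ends_inj _ _ (Or.inr ⟨c2, c3⟩))
  · obtain ⟨c1, c2, c3⟩ := key _ _ _ _ (a2.symm.trans b2) (a1.symm.trans b1)
    exact Prod.ext c1 (ends_inj _ _ (Or.inr ⟨c2, c3⟩))
  · obtain ⟨c1, c2, c3⟩ := key _ _ _ _ (a2.symm.trans b2) (a1.symm.trans b1)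
    exact Prod.ext c1 (ends_inj _ _ (Or.inl ⟨c2, c3⟩))

theorem sgG_mul (h : IsTri G t) (x : Fin n → ℂ) (u : Fin k × Fin 3) :
    sgG t u * Dm G x (tauG h u) = x (t (u.1, (ends u.2).2)) - x (t (u.1, (ends u.2).1)) :=
  sg_mul _ _ _ _

theorem sgG_cases (t : Fin k × Fin 3 → Fin n) (u : Fin k × Fin 3) : sgG t u = 1 ∨ sgG t u = -1 :=
  sg_cases _ _

theorem sgG_sq (t : Fin k × Fin 3 → Fin n) (u : Fin k × Fin 3) : sgG t u * sgG t u = 1 := by
  rcases sgG_cases t u with h | h <;> rw [h] <;> norm_num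

theorem tri_rel (h : IsTri G t) (x : Fin n → ℂ) (i : Fin k) :
    sgG t (i, 0) * Dm G x (tauG h (i, 0)) - sgG t (i, 1) * Dm G x (tauG h (i, 1)) =
      sgG t (i, 2) * Dm G x (tauG h (i, 2)) := by
  rw [sgG_mul, sgG_mul, sgG_mul]
  show (x (t (i, 1)) - x (t (i, 0))) - (x (t (i, 2)) - x (t (i, 0))) =
    x (t (i, 1)) - x (t (i, 2))
  ring

theorem mem_FzG (h : IsTri G t) (z : Fin k → ℂ) (x : Fin n → ℂ) :
    x ∈ Fz (Dm G) (tauG h) (sgG t) z ↔
      ∀ i, x (t (i, 2)) - x (t (i, 0)) = z i * (x (t (i, 1)) - x (t (i, 0))) := by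
  rw [mem_Fz]
  refine forall_congr' fun i => ?_
  rw [sgG_mul, sgG_mul]
  rfl

/-- the values of a vector on a triangle which vanishes at one vertex -/
noncomputable def Wv (z : ℂ) (α : Fin 3) : Fin 3 → ℂ :=
  ![![0, 1, z], ![1, 0, 1 - z], ![z, z - 1, 0]] α

theorem Wv_self (z : ℂ) (α : Fin 3) : Wv z α α = 0 := by
  fin_cases α <;> rfl

theorem Wv_ne_zero {z : ℂ} (hz : z ≠ 0 ∧ z ≠ 1) {α β : Fin 3} (h : β ≠ α) : Wv z α β ≠ 0 := by
  obtain ⟨h0, h1⟩ := hz
  have h2 : 1 - z ≠ 0 := sub_ne_zero.2 h1.symm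
  have h3 : z - 1 ≠ 0 := sub_ne_zero.2 h1
  fin_cases α <;> fin_cases β <;> simp_all [Wv]

theorem Wv_inj {z : ℂ} (hz : z ≠ 0 ∧ z ≠ 1) (α : Fin 3) {β γ : Fin 3} (h : β ≠ γ) :
    Wv z α β ≠ Wv z α γ := by
  obtain ⟨h0, h1⟩ := hz
  intro he
  have h2 : (0 : ℂ) ≠ 1 := zero_ne_one
  fin_cases α <;> fin_cases β <;> fin_cases γ <;>
    first
    | exact h rfl
    | (change (0 : ℂ) = 1 at he; exact h2 he)
    | (change (1 : ℂ) = 0 at he; exact h2 he.symm)
    | (change (0 : ℂ) = z at he; exact h0 he.symm)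
    | (change z = (0 : ℂ) at he; exact h0 he)
    | (change (1 : ℂ) = z at he; exact h1 he.symm)
    | (change z = (1 : ℂ) at he; exact h1 he)
    | (change (1 : ℂ) = 1 - z at he; exact h0 (by linear_combination he))
    | (change 1 - z = (1 : ℂ) at he; exact h0 (by linear_combination -he))
    | (change (0 : ℂ) = 1 - z at he; exact h1 (by linear_combination he))
    | (change 1 - z = (0 : ℂ) at he; exact h1 (by linear_combination -he))
    | (change z = z - 1 at he; exact h2 (by linear_combination -he))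
    | (change z - 1 = z at he; exact h2 (by linear_combination he))
    | (change z - 1 = (0 : ℂ) at he; exact h1 (by linear_combination he))
    | (change (0 : ℂ) = z - 1 at he; exact h1 (by linear_combination -he))

theorem Wv_rel (z : ℂ) (α : Fin 3) :
    Wv z α 2 - Wv z α 0 = z * (Wv z α 1 - Wv z α 0) := by
  fin_cases α <;> simp [Wv]

/-- selection of vectors in the subspace -/
theorem exists_sel (h : IsTri G t) {z : Fin k → ℂ} (hz : ∀ i, z i ≠ 0 ∧ z i ≠ 1)
    (u v : Fin n) (huv : u ≠ v) (p q : Fin n) (hup : u ≠ p) (huq : u ≠ q)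
    (hpq : ∀ i α β γ, t (i, γ) = u → t (i, α) = p → t (i, β) = q → α = β) :
    ∃ x ∈ Fz (Dm G) (tauG h) (sgG t) z, x u ≠ x v ∧ x p = 0 ∧ x q = 0 := by
  classical
  by_cases hu : u ∈ Set.range t
  · obtain ⟨⟨i, γ⟩, hγ⟩ := hu
    obtain ⟨α, hα1, hα2, hα3⟩ : ∃ α : Fin 3, α ≠ γ ∧ (∀ β, t (i, β) = p → β = α) ∧
        ∀ β, t (i, β) = q → β = α := by
      by_cases h1 : ∃ α, t (i, α) = p
      · obtain ⟨α, hα⟩ := h1
        refine ⟨α, ?_, fun β hβ => ?_, fun β hβ => (hpq i α β γ hγ hα hβ).symm⟩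
        · rintro rfl
          exact hup (hγ.symm.trans hα)
        · exact congrArg Prod.snd (h.1 (hβ.trans hα.symm))
      · by_cases h2 : ∃ α, t (i, α) = q
        · obtain ⟨α, hα⟩ := h2
          refine ⟨α, ?_, fun β hβ => absurd ⟨β, hβ⟩ h1, fun β hβ => ?_⟩
          · rintro rfl
            exact huq (hγ.symm.trans hα)
          · exact congrArg Prod.snd (h.1 (hβ.trans hα.symm))
        · refine ⟨γ + 1, ?_, fun β hβ => absurd ⟨β, hβ⟩ h1, fun β hβ => absurd ⟨β, hβ⟩ h2⟩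
          fin_cases γ <;> decide
    have hinj : Function.Injective fun j : Fin 3 => t (i, j) := fun a b hab =>
      congrArg Prod.snd (h.1 hab)
    let x : Fin n → ℂ := Function.extend (fun j : Fin 3 => t (i, j)) (Wv (z i) α) 0
    have hx1 : ∀ j, x (t (i, j)) = Wv (z i) α j := fun j => hinj.extend_apply _ _ j
    have hx2 : ∀ v, (¬ ∃ j, t (i, j) = v) → x v = 0 := fun v hv =>
      Function.extend_apply' _ _ _ hv
    refine ⟨x, ?_, ?_, ?_, ?_⟩
    · rw [mem_FzG]
      intro i'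
      by_cases hi : i' = i
      · rw [hi, hx1, hx1, hx1]
        exact Wv_rel _ _
      · have h3 : ∀ j, x (t (i', j)) = 0 := by
          intro j
          refine hx2 _ ?_
          rintro ⟨j', hj'⟩
          exact hi (congrArg Prod.fst (h.1 hj')).symm
        rw [h3, h3, h3]
        ring
    · rw [← hγ, hx1]
      by_cases hv : ∃ j, t (i, j) = v
      · obtain ⟨j, rfl⟩ := hv
        rw [hx1]
        refine Wv_inj (hz i) α ?_
        rintro rfl
        exact huv hγ.symm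
      · rw [hx2 v hv]
        exact Wv_ne_zero (hz i) hα1.symm
    · by_cases hp : ∃ j, t (i, j) = p
      · obtain ⟨j, hj⟩ := hp
        rw [← hj, hx1, hα2 j hj]
        exact Wv_self _ _
      · exact hx2 p hp
    · by_cases hq : ∃ j, t (i, j) = q
      · obtain ⟨j, hj⟩ := hq
        rw [← hj, hx1, hα3 j hj]
        exact Wv_self _ _
      · exact hx2 q hq
  · refine ⟨Pi.single u 1, ?_, ?_, ?_, ?_⟩
    · rw [mem_FzG]
      intro i
      have h3 : ∀ j, (Pi.single u 1 : Fin n → ℂ) (t (i, j)) = 0 := by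
        intro j
        rw [Pi.single_eq_of_ne]
        rintro rfl
        exact hu ⟨_, rfl⟩
      rw [h3, h3, h3]
      ring
    · rw [Pi.single_eq_same, Pi.single_eq_of_ne huv.symm]
      exact one_ne_zero
    · exact Pi.single_eq_of_ne hup.symm _
    · exact Pi.single_eq_of_ne huq.symm _

theorem Dm_ne (G : SimpleGraph (Fin n)) (e : Edge G) : ∃ x, Dm G x e ≠ 0 := by
  classical
  refine ⟨Pi.single e.1.2 1, ?_⟩
  rw [Dm_apply, Pi.single_eq_same, Pi.single_eq_of_ne e.2.1.ne, sub_zero]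
  exact one_ne_zero

/-- from the points on the differences along a graph with triangles to the powers of the line -/
theorem line_of_graph (h : IsTri G t)
    (hfin : ∃ 𝒜 : Set (Set (Edge G → ℂˣ)), 𝒜.Finite ∧
      (∀ A ∈ 𝒜, IsSubvar A ∧ A ⊆ SM (Dm G) ∧ dimT (SM (Dm G)) < dimT A + finrank ℤ (rel A)) ∧
      ∀ y ∈ SM (Dm G), dimT (SM (Dm G)) < finrank ℤ (rel {y}) → ∃ A ∈ 𝒜, y ∈ A) :
    ∃ S : Finset (Ideal (MvPolynomial (Fin k) ℂ)),
      (∀ P ∈ S, Pool.Agent.W206.CT.Atypical k P) ∧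
        ∀ z : Fin k → ℂ, (∀ i, z i ≠ 0 ∧ z i ≠ 1) →
          (∃ Λ : Submodule ℤ (Fin k ⊕ Fin k → ℤ), k + 1 ≤ Module.finrank ℤ Λ ∧
            ∀ a ∈ Λ, chr z a = 1) →
          ∃ P ∈ S, ∀ f ∈ P, eval z f = 0 := by
  classical
  let T : Finset (Edge G) := (Finset.univ.image fun i : Fin k => tauG h (i, 0)) ∪
    Finset.univ.image fun i : Fin k => tauG h (i, 1)
  have hT : SurjOn (Dm G) T := by
    intro c
    let x : Fin n → ℂ := Function.extend t (fun u => ![0, sgG t (u.1, 0) * c (tauG h (u.1, 0)),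
      sgG t (u.1, 1) * c (tauG h (u.1, 1))] u.2) 0
    have hx : ∀ u, x (t u) = ![0, sgG t (u.1, 0) * c (tauG h (u.1, 0)),
      sgG t (u.1, 1) * c (tauG h (u.1, 1))] u.2 := fun u => h.1.extend_apply _ _ u
    refine ⟨x, fun b hb => ?_⟩
    rcases Finset.mem_union.1 hb with hb | hb
    · obtain ⟨i, -, rfl⟩ := Finset.mem_image.1 hb
      have h1 := sgG_mul h x (i, 0)
      have h2 : x (t (i, 1)) - x (t (i, 0)) = sgG t (i, 0) * c (tauG h (i, 0)) := by
        rw [hx, hx]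
        show sgG t (i, 0) * c (tauG h (i, 0)) - 0 = _
        rw [sub_zero]
      have h3 : sgG t (i, 0) * Dm G x (tauG h (i, 0)) = sgG t (i, 0) * c (tauG h (i, 0)) :=
        h1.trans h2
      have h4 := congrArg (fun w => sgG t (i, 0) * w) h3
      simp only [← mul_assoc, sgG_sq, one_mul] at h4
      exact h4
    · obtain ⟨i, -, rfl⟩ := Finset.mem_image.1 hb
      have h1 := sgG_mul h x (i, 1)
      have h2 : x (t (i, 2)) - x (t (i, 0)) = sgG t (i, 1) * c (tauG h (i, 1)) := by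
        rw [hx, hx]
        show sgG t (i, 1) * c (tauG h (i, 1)) - 0 = _
        rw [sub_zero]
      have h3 : sgG t (i, 1) * Dm G x (tauG h (i, 1)) = sgG t (i, 1) * c (tauG h (i, 1)) :=
        h1.trans h2
      have h4 := congrArg (fun w => sgG t (i, 1) * w) h3
      simp only [← mul_assoc, sgG_sq, one_mul] at h4
      exact h4
  obtain ⟨B, hTB, hB, lam, hlam⟩ := exists_basis_coord (Dm G) T hT
  refine transfer (Dm_ne G) (tauG_inj h) (sgG_cases t) (tri_rel h) hB hlam (fun i => ⟨hTB ?_,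
    hTB ?_⟩) (fun z hz e => ?_) (fun z hz e he e' hee => ?_) (fun z hz q => ?_) hfin
  · exact Finset.mem_union_left _ (Finset.mem_image.2 ⟨i, Finset.mem_univ _, rfl⟩)
  · exact Finset.mem_union_right _ (Finset.mem_image.2 ⟨i, Finset.mem_univ _, rfl⟩)
  · have hne : e.1.1 ≠ e.1.2 := e.2.1.ne
    obtain ⟨x, hx, h1, -, -⟩ := exists_sel h hz e.1.1 e.1.2 hne e.1.2 e.1.2 hne hne
      (fun i α β γ _ h2 h3 => congrArg Prod.snd (h.1 (h2.trans h3.symm)))
    exact ⟨x, hx, sub_ne_zero.2 h1.symm⟩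
  · -- an end of `e'` which is not an end of `e`
    have hpq : ∀ (u : Fin n) (i : Fin k) (α β γ : Fin 3), t (i, γ) = u → t (i, α) = e.1.1 →
        t (i, β) = e.1.2 → α = β := by
      intro u i α β γ _ h2 h3
      by_contra hab
      obtain ⟨j, hj⟩ := ends_surj α β hab
      apply he
      refine ⟨(i, j), ed_of_ends _ _ _ _ ?_⟩
      rcases hj with ⟨rfl, rfl⟩ | ⟨rfl, rfl⟩
      · exact Or.inl ⟨h2.symm, h3.symm⟩
      · exact Or.inr ⟨h2.symm, h3.symm⟩
    have hends : (e'.1.1 ≠ e.1.1 ∧ e'.1.1 ≠ e.1.2) ∨ (e'.1.2 ≠ e.1.1 ∧ e'.1.2 ≠ e.1.2) := by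
      by_contra hcon
      push Not at hcon
      obtain ⟨h1, h2⟩ := hcon
      have h3 := e.2.1
      have h4 := e'.2.1
      apply hee
      apply Subtype.ext
      by_cases h5 : e'.1.1 = e.1.1
      · by_cases h6 : e'.1.2 = e.1.1
        · rw [h5, h6] at h4
          exact absurd h4 (lt_irrefl _)
        · exact Prod.ext h5 (h2 h6)
      · have h7 := h1 h5
        by_cases h6 : e'.1.2 = e.1.1
        · rw [h7, h6] at h4
          exact absurd h4 (not_lt.2 h3.le)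
        · have h8 := h2 h6
          rw [h7, h8] at h4
          exact absurd h4 (lt_irrefl _)
    have hne' : e'.1.1 ≠ e'.1.2 := e'.2.1.ne
    rcases hends with ⟨h1, h2⟩ | ⟨h1, h2⟩
    · obtain ⟨x, hx, h3, h4, h5⟩ := exists_sel h hz e'.1.1 e'.1.2 hne' e.1.1 e.1.2 h1 h2
        (hpq e'.1.1)
      refine ⟨x, hx, ?_, ?_⟩
      · rw [Dm_apply, h4, h5, sub_zero]
      · rw [Dm_apply]
        exact sub_ne_zero.2 h3.symm
    · obtain ⟨x, hx, h3, h4, h5⟩ := exists_sel h hz e'.1.2 e'.1.1 hne'.symm e.1.1 e.1.2 h1 h2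
        (hpq e'.1.2)
      refine ⟨x, hx, ?_, ?_⟩
      · rw [Dm_apply, h4, h5, sub_zero]
      · rw [Dm_apply]
        exact sub_ne_zero.2 h3
  · let x : Fin n → ℂ := Function.extend t (fun u => ![0, q u.1, z u.1 * q u.1] u.2) 0
    have hx : ∀ u, x (t u) = ![0, q u.1, z u.1 * q u.1] u.2 := fun u => h.1.extend_apply _ _ u
    have hx0 : ∀ i, x (t (i, 0)) = 0 := fun i => hx (i, 0)
    have hx1 : ∀ i, x (t (i, 1)) = q i := fun i => hx (i, 1)
    have hx2 : ∀ i, x (t (i, 2)) = z i * q i := fun i => hx (i, 2)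
    refine ⟨x, ?_, fun i => ?_⟩
    · rw [mem_FzG]
      intro i
      rw [hx0, hx1, hx2]
      ring
    · rw [sgG_mul]
      show x (t (i, 1)) - x (t (i, 0)) = q i
      rw [hx0, hx1, sub_zero]

/-- the dimension of the variety of the differences of `n + 1` numbers -/
theorem dimT_complete (n : ℕ) :
    dimT (SM (Dm (⊤ : SimpleGraph (Fin (n + 1))))) = n := by
  classical
  let f : Fin n → Edge (⊤ : SimpleGraph (Fin (n + 1))) := fun v =>
    ⟨(0, v.succ), Fin.succ_pos v, by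
      rw [SimpleGraph.top_adj]
      exact (Fin.succ_ne_zero v).symm⟩
  have hf : Function.Injective f := by
    intro a b hab
    exact Fin.succ_injective _ (congrArg (fun e => e.1.2) hab)
  let B : Finset (Edge (⊤ : SimpleGraph (Fin (n + 1)))) := Finset.univ.image f
  have hB : SurjOn (Dm (⊤ : SimpleGraph (Fin (n + 1)))) B := by
    intro c
    refine ⟨Fin.cons 0 fun v => c (f v), fun b hb => ?_⟩
    obtain ⟨v, -, rfl⟩ := Finset.mem_image.1 hb
    rw [Dm_apply]
    show (Fin.cons 0 (fun v => c (f v)) : Fin (n + 1) → ℂ) v.succ -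
      (Fin.cons 0 (fun v => c (f v)) : Fin (n + 1) → ℂ) 0 = c (f v)
    rw [Fin.cons_succ, Fin.cons_zero, sub_zero]
  have h0 : ∀ e, ∀ x, (∀ b ∈ B, Dm (⊤ : SimpleGraph (Fin (n + 1))) x b = 0) →
      Dm (⊤ : SimpleGraph (Fin (n + 1))) x e = 0 := by
    intro e x hx
    have h1 : ∀ v, x v = x 0 := by
      intro v
      refine Fin.cases rfl (fun w => ?_) v
      have h2 := hx (f w) (Finset.mem_image.2 ⟨w, Finset.mem_univ _, rfl⟩)
      rw [Dm_apply] at h2
      exact sub_eq_zero.1 h2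
    rw [Dm_apply, h1 e.1.2, h1 e.1.1, sub_self]
  choose lam hlam using fun e => exists_lam hB e (h0 e)
  rw [dimT_SM (Dm_ne _) hB (fun x e => hlam e x), Finset.card_image_of_injective _ hf,
    Finset.card_univ, Fintype.card_fin]

end Pool.Agent.Helper5.GZ
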