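import Pool.Graph.R_pool_sql_team_seeded_1acbe0a2.Y645.UG.FinG
import Pool.Graph.R_pool_sql_team_seeded_1acbe0a2.Y390.UG.TDg
import Pool.Graph.R_pool_sql_team_seeded_1acbe0a2.Y949.UL.Dim
import Pool.Graph.R_pool_sql_team_seeded_1acbe0a2.Y388.UL.Spc
import Pool.Graph.R_pool_sql_team_seeded_1acbe0a2.Y331.UL.Noe

/-!
# Linear subvarieties of tori: the image of a linear map
-/

set_option autoImplicit false
set_option linter.unusedSectionVars false

namespace Pool.Agent.Helper5.GZ

open MvPolynomial Module Pool.Agent.Y645.UL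

variable {V E : Type} [Fintype V] [Fintype E]

/-- the points of the torus in the image of the linear map `M` -/
def SM (M : (V → ℂ) →ₗ[ℂ] (E → ℂ)) : Set (E → ℂˣ) := {y | ∃ x, ∀ e, (y e : ℂ) = M x e}

open Classical in
/-- the linear polynomials of the coordinates of `M` -/
noncomputable def lp (M : (V → ℂ) →ₗ[ℂ] (E → ℂ)) (e : E) : MvPolynomial V ℂ :=
  ∑ v, C (M (Pi.single v 1) e) * X v

theorem eval_lp (M : (V → ℂ) →ₗ[ℂ] (E → ℂ)) (x : V → ℂ) (e : E) : eval x (lp M e) = M x e := by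
  classical
  rw [lp, map_sum]
  have h : x = ∑ v, x v • (Pi.single v 1 : V → ℂ) := by
    funext w
    rw [Finset.sum_apply, Finset.sum_eq_single w]
    · simp
    · intro b _ hb
      simp [hb.symm]
    · simp
  conv_rhs => rw [h]
  rw [map_sum, Finset.sum_apply]
  refine Finset.sum_congr rfl fun v _ => ?_
  rw [map_mul, eval_C, eval_X, map_smul, Pi.smul_apply, smul_eq_mul, mul_comm]

/-- the function field -/
abbrev Om (V : Type) : Type := FractionRing (MvPolynomial V ℂ)

variable {M : (V → ℂ) →ₗ[ℂ] (E → ℂ)}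

theorem lp_ne (hM : ∀ e, ∃ x, M x e ≠ 0) (e : E) : lp M e ≠ 0 := by
  intro h
  obtain ⟨x, hx⟩ := hM e
  rw [← eval_lp, h, map_zero] at hx
  exact hx rfl

/-- the generic point of `SM M` -/
noncomputable def gp (M : (V → ℂ) →ₗ[ℂ] (E → ℂ)) (hM : ∀ e, ∃ x, M x e ≠ 0) (e : E) : (Om V)ˣ :=
  Units.mk0 (algebraMap (MvPolynomial V ℂ) (Om V) (lp M e)) (by
    rw [Ne, map_eq_zero_iff _ (IsFractionRing.injective _ _)]
    exact lp_ne hM e)

theorem gp_val (hM : ∀ e, ∃ x, M x e ≠ 0) (e : E) :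
    (gp M hM e : Om V) = algebraMap (MvPolynomial V ℂ) (Om V) (lp M e) := rfl

theorem eval_aeval_lp (f : MvPolynomial E ℂ) (x : V → ℂ) :
    eval x (aeval (lp M) f) = eval (M x) f := by
  rw [← coe_aeval_eq_eval, ← coe_aeval_eq_eval, RingHom.coe_coe, RingHom.coe_coe]
  have h : ((aeval x : MvPolynomial V ℂ →ₐ[ℂ] ℂ).comp (aeval (lp M))) = aeval (M x) := by
    refine MvPolynomial.algHom_ext fun e => ?_
    rw [AlgHom.comp_apply, aeval_X, aeval_X]
    exact eval_lp M x e
  rw [← h]
  rfl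

theorem aeval_lp_eq_zero (f : MvPolynomial E ℂ) :
    aeval (lp M) f = 0 ↔ ∀ x, eval (M x) f = 0 := by
  constructor
  · intro h x
    rw [← eval_aeval_lp, h, map_zero]
  · intro h
    refine MvPolynomial.funext fun x => ?_
    rw [eval_aeval_lp, h, map_zero]

theorem aeval_gp (hM : ∀ e, ∃ x, M x e ≠ 0) (f : MvPolynomial E ℂ) :
    aeval (fun e => (gp M hM e : Om V)) f = 0 ↔ ∀ x, eval (M x) f = 0 := by
  rw [← aeval_lp_eq_zero]
  have h : (aeval (fun e => (gp M hM e : Om V)) : MvPolynomial E ℂ →ₐ[ℂ] Om V) =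
      (Algebra.algHom ℂ (MvPolynomial V ℂ) (Om V)).comp (aeval (lp M)) := by
    refine MvPolynomial.algHom_ext fun e => ?_
    rw [AlgHom.comp_apply, aeval_X, aeval_X]
    rfl
  rw [h, AlgHom.comp_apply]
  exact map_eq_zero_iff _ (IsFractionRing.injective (MvPolynomial V ℂ) (Om V))

theorem mem_van_SM (hM : ∀ e, ∃ x, M x e ≠ 0) (f : MvPolynomial E ℂ) :
    f ∈ van (SM M) ↔ ∀ x, eval (M x) f = 0 := by
  constructor
  · intro hf
    rw [← aeval_lp_eq_zero]
    have h1 : aeval (lp M) f * ∏ e, lp M e = 0 := by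
      refine MvPolynomial.funext fun x => ?_
      rw [map_mul, map_prod, map_zero, eval_aeval_lp]
      simp only [eval_lp]
      by_cases h0 : ∀ e, M x e ≠ 0
      · have h2 := hf (fun e => Units.mk0 (M x e) (h0 e)) ⟨x, fun e => rfl⟩
        have h3 : eval (M x) f = 0 := h2
        rw [h3, zero_mul]
      · push Not at h0
        obtain ⟨e, he⟩ := h0
        rw [Finset.prod_eq_zero (Finset.mem_univ e) he, mul_zero]
    rcases mul_eq_zero.1 h1 with h2 | h2
    · exact h2
    · obtain ⟨e, -, he⟩ := Finset.prod_eq_zero_iff.1 h2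
      exact absurd he (lp_ne hM e)
  · rintro h y ⟨x, hx⟩
    have h1 : (fun e => (y e : ℂ)) = M x := funext hx
    rw [h1]
    exact h x

theorem van_SM (hM : ∀ e, ∃ x, M x e ≠ 0) (f : MvPolynomial E ℂ) :
    f ∈ van (SM M) ↔ aeval (fun e => (gp M hM e : Om V)) f = 0 := by
  rw [mem_van_SM hM, aeval_gp]

/-- the image of `M` is closed -/
theorem isClosedT_SM (M : (V → ℂ) →ₗ[ℂ] (E → ℂ)) : IsClosedT (SM M) := by
  classical
  obtain ⟨g, hg⟩ := M.rangeRestrict.exists_rightInverse_of_surjective M.range_rangeRestrict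
  obtain ⟨q, hq⟩ := M.range.subtype.exists_leftInverse_of_injective (Submodule.ker_subtype _)
  let N : (E → ℂ) →ₗ[ℂ] (E → ℂ) := M ∘ₗ g ∘ₗ q
  have hN : ∀ x, N (M x) = M x := by
    intro x
    have h1 : q (M x) = M.rangeRestrict x := by
      have := LinearMap.congr_fun hq (M.rangeRestrict x)
      simpa using this
    have h2 : M.rangeRestrict (g (M.rangeRestrict x)) = M.rangeRestrict x :=
      LinearMap.congr_fun hg _
    show M (g (q (M x))) = M x
    rw [h1]
    exact congrArg Subtype.val h2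
  refine ⟨Set.range fun e => lp N e - X e, ?_⟩
  ext y
  constructor
  · rintro ⟨x, hx⟩ _ ⟨e, rfl⟩
    have h1 : (fun e => (y e : ℂ)) = M x := funext hx
    show eval (fun e => (y e : ℂ)) (lp N e - X e) = 0
    rw [map_sub, eval_lp, eval_X, h1, hN, hx e, sub_self]
  · intro h
    refine ⟨g (q (fun e => (y e : ℂ))), fun e => ?_⟩
    have h1 := h _ ⟨e, rfl⟩
    change eval (fun e => (y e : ℂ)) (lp N e - X e) = 0 at h1
    rw [map_sub, eval_lp, eval_X, sub_eq_zero] at h1
    exact h1.symm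

/-- the transcendence degree is at least the number of independent coordinates -/
theorem card_le_tdu (hM : ∀ e, ∃ x, M x e ≠ 0) (B : Finset E)
    (hB : ∀ c : B → ℂ, ∃ x, ∀ b : B, M x b = c b) : B.card ≤ tdu ℂ (gp M hM) := by
  have h1 : AlgebraicIndependent ℂ (fun b : B => (gp M hM b : Om V)) := by
    rw [algebraicIndependent_iff]
    intro f hf
    refine MvPolynomial.funext fun c => ?_
    rw [map_zero]
    obtain ⟨x, hx⟩ := hB c
    have h2 : aeval (fun e => (gp M hM e : Om V)) (rename (fun b : B => (b : E)) f) = 0 := by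
      rw [aeval_rename]
      exact hf
    have h3 := (aeval_gp hM _).1 h2 x
    rw [eval_rename] at h3
    rw [← h3]
    congr 2
    funext b
    exact (hx b).symm
  have h2 := card_le_td (x := fun e => (gp M hM e : Om V)) h1 (fun b => alg_self ⟨b, rfl⟩)
  rwa [Fintype.card_coe] at h2

/-- the transcendence degree of a point of a linear subvariety -/
theorem td_le_of_span {L : Type} [Field L] [Algebra ℂ L] (y : E → L) (B : Finset E)
    (lam : E → B → ℂ) (h : ∀ e, y e = ∑ b, algebraMap ℂ L (lam e b) * y b) : td ℂ y ≤ B.card := by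
  have h1 : td ℂ y ≤ td ℂ (fun b : B => y b) := by
    refine td_le_of_alg fun e => ?_
    have h3 : y e ∈ Algebra.adjoin ℂ (Set.range fun b : B => y b) := by
      rw [h e]
      exact Subalgebra.sum_mem _ fun b _ => Subalgebra.mul_mem _
        (Subalgebra.algebraMap_mem _ _) (Algebra.subset_adjoin ⟨b, rfl⟩)
    exact isAlgebraic_algebraMap (⟨_, h3⟩ : Algebra.adjoin ℂ (Set.range fun b : B => y b))
  have h2 := td_le_card (k := ℂ) (fun b : B => y b)
  rw [Fintype.card_coe] at h2
  omega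

end Pool.Agent.Helper5.GZ
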