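import Pool.Agent.Helper5.GZ.Lin

/-!
# Independent coordinates of a linear subvariety of a torus, and its dimension
-/

set_option autoImplicit false
set_option linter.unusedSectionVars false

namespace Pool.Agent.Helper5.GZ

open MvPolynomial Module Pool.Agent.Y645.UL

variable {V E : Type} [Fintype V] [Fintype E]

/-- the coordinates in `B` are independent -/
def SurjOn (M : (V → ℂ) →ₗ[ℂ] (E → ℂ)) (B : Finset E) : Prop :=
  ∀ c : E → ℂ, ∃ x, ∀ b ∈ B, M x b = c b

theorem exists_lam {M : (V → ℂ) →ₗ[ℂ] (E → ℂ)} {B : Finset E} (hB : SurjOn M B) (e : E)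
    (he : ∀ x, (∀ b ∈ B, M x b = 0) → M x e = 0) :
    ∃ lam : B → ℂ, ∀ x, M x e = ∑ b, lam b * M x b := by
  classical
  let r : (V → ℂ) →ₗ[ℂ] (B → ℂ) := LinearMap.pi fun b => LinearMap.proj (b : E) ∘ₗ M
  have hr : LinearMap.range r = ⊤ := by
    rw [LinearMap.range_eq_top]
    intro c
    obtain ⟨x, hx⟩ := hB (fun e => if h : e ∈ B then c ⟨e, h⟩ else 0)
    refine ⟨x, ?_⟩
    funext b
    show M x b = c b
    rw [hx b b.2, dif_pos b.2]
  obtain ⟨g, hg⟩ := r.exists_rightInverse_of_surjective hr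
  have h1 : ∀ x, M x e = M (g (r x)) e := by
    intro x
    have h2 := he (x - g (r x)) (fun b hb => by
      have h3 := LinearMap.congr_fun hg (r x)
      have h4 : M (g (r x)) b = M x b := congrFun h3 ⟨b, hb⟩
      rw [map_sub, Pi.sub_apply, h4, sub_self])
    rw [map_sub, Pi.sub_apply, sub_eq_zero] at h2
    exact h2
  refine ⟨fun b => M (g (Pi.single b 1)) e, fun x => ?_⟩
  rw [h1 x]
  have h5 : r x = ∑ b, r x b • (Pi.single b 1 : B → ℂ) := by
    funext w
    rw [Finset.sum_apply, Finset.sum_eq_single w]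
    · simp
    · intro b _ hb
      simp [hb.symm]
    · simp
  conv_lhs => rw [h5]
  rw [map_sum, map_sum, Finset.sum_apply]
  refine Finset.sum_congr rfl fun b _ => ?_
  rw [map_smul, map_smul, Pi.smul_apply, smul_eq_mul, mul_comm]
  rfl

/-- extension of an independent set of coordinates to a basis -/
theorem exists_basis_coord (M : (V → ℂ) →ₗ[ℂ] (E → ℂ)) (T : Finset E) (hT : SurjOn M T) :
    ∃ B : Finset E, T ⊆ B ∧ SurjOn M B ∧
      ∃ lam : E → B → ℂ, ∀ x e, M x e = ∑ b, lam e b * M x b := by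
  classical
  obtain ⟨B, hB, hmax⟩ := Finset.exists_max_image
    ((Finset.univ : Finset (Finset E)).filter fun B => T ⊆ B ∧ SurjOn M B) Finset.card
    ⟨T, Finset.mem_filter.2 ⟨Finset.mem_univ _, Finset.Subset.refl _, hT⟩⟩
  obtain ⟨-, hTB, hsB⟩ := Finset.mem_filter.1 hB
  have key : ∀ e, ∀ x, (∀ b ∈ B, M x b = 0) → M x e = 0 := by
    intro e x hx
    by_cases heB : e ∈ B
    · exact hx e heB
    by_contra hne
    have h1 : SurjOn M (insert e B) := by
      intro c
      obtain ⟨x1, hx1⟩ := hsB c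
      refine ⟨x1 + ((c e - M x1 e) / M x e) • x, fun b hb => ?_⟩
      rw [map_add, map_smul, Pi.add_apply, Pi.smul_apply, smul_eq_mul]
      rcases Finset.mem_insert.1 hb with rfl | hb
      · field_simp
        ring
      · rw [hx b hb, mul_zero, add_zero, hx1 b hb]
    have h2 := hmax (insert e B) (Finset.mem_filter.2 ⟨Finset.mem_univ _,
      hTB.trans (Finset.subset_insert _ _), h1⟩)
    rw [Finset.card_insert_of_notMem heB] at h2
    omega
  choose lam hlam using fun e => exists_lam hsB e (key e)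
  exact ⟨B, hTB, hsB, lam, fun x e => hlam e x⟩

/-- the linear equations hold at the generic points -/
theorem lin_of_van {M : (V → ℂ) →ₗ[ℂ] (E → ℂ)} {B : Finset E} {lam : B → ℂ} {e : E}
    (h : ∀ x, M x e = ∑ b, lam b * M x b) {A : Set (E → ℂˣ)} (hA : A ⊆ SM M) {L : Type} [Field L]
    [Algebra ℂ L] {y : E → L} (hy : ∀ f ∈ van A, aeval y f = 0) :
    y e = ∑ b : B, algebraMap ℂ L (lam b) * y b := by
  have h1 := hy (X e - ∑ b : B, C (lam b) * X (b : E)) (by
    intro u hu
    obtain ⟨x, hx⟩ := hA hu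
    rw [map_sub, eval_X, map_sum, sub_eq_zero, hx, h]
    refine Finset.sum_congr rfl fun b _ => ?_
    rw [map_mul, eval_C, eval_X, hx])
  rw [map_sub, aeval_X, map_sum, sub_eq_zero] at h1
  rw [h1]
  refine Finset.sum_congr rfl fun b _ => ?_
  rw [map_mul, algHom_C, aeval_X]

/-- the dimension of a linear subvariety -/
theorem dimT_SM {M : (V → ℂ) →ₗ[ℂ] (E → ℂ)} (hM : ∀ e, ∃ x, M x e ≠ 0) {B : Finset E}
    (hB : SurjOn M B) {lam : E → B → ℂ} (hlam : ∀ x e, M x e = ∑ b, lam e b * M x b) :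
    dimT (SM M) = B.card := by
  classical
  rw [Pool.Agent.Y949.UL.t_DIM ℂ (Om V) E (gp M hM) (SM M) (van_SM hM)]
  refine le_antisymm ?_ ?_
  · refine td_le_of_span _ B lam fun e => ?_
    exact lin_of_van (fun x => hlam x e) (Set.Subset.refl (SM M)) (fun f hf => (van_SM hM f).1 hf)
  · refine card_le_tdu hM B fun c => ?_
    obtain ⟨x, hx⟩ := hB (fun e => if h : e ∈ B then c ⟨e, h⟩ else 0)
    refine ⟨x, fun b => ?_⟩
    rw [hx b b.2, dif_pos b.2]

/-- a common zero of one linear form which is not a zero of the others -/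
theorem exists_avoid {U : Type} [AddCommGroup U] [Module ℂ U] (F : Submodule ℂ U) {I : Type}
    [Finite I] (φ : I → U →ₗ[ℂ] ℂ) (h : ∀ i, ∃ x ∈ F, φ i x ≠ 0) : ∃ x ∈ F, ∀ i, φ i x ≠ 0 := by
  by_contra hcon
  push Not at hcon
  have h1 : ⋃ i, ((LinearMap.ker (φ i ∘ₗ F.subtype) : Submodule ℂ F) : Set F) = Set.univ := by
    ext x
    simp only [Set.mem_iUnion, SetLike.mem_coe, LinearMap.mem_ker, Set.mem_univ, iff_true]
    obtain ⟨i, hi⟩ := hcon x x.2
    exact ⟨i, hi⟩
  obtain ⟨i, hi⟩ := Subspace.exists_eq_top_of_iUnion_eq_univ h1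
  obtain ⟨x, hx, hne⟩ := h i
  apply hne
  have h2 : (⟨x, hx⟩ : F) ∈ LinearMap.ker (φ i ∘ₗ F.subtype) := by
    rw [hi]
    trivial
  exact h2

end Pool.Agent.Helper5.GZ
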