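import Pool.Agent.Helper5.GZ.Transfer

/-!
# The transfer: main statement
-/

set_option autoImplicit false
set_option linter.unusedSectionVars false

namespace Pool.Agent.Helper5.GZ

open MvPolynomial Module Pool.Agent.Y645.UL
open Pool.Agent.W206.CT (chr TrGe AtypPt)

variable {V E : Type} [Fintype V] [Fintype E] {k : ℕ}

theorem transfer {M : (V → ℂ) →ₗ[ℂ] (E → ℂ)} (hM : ∀ e, ∃ x, M x e ≠ 0)
    {τ : Fin k × Fin 3 → E} {s : Fin k × Fin 3 → ℂ} (hτ : Function.Injective τ)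
    (hs : ∀ u, s u = 1 ∨ s u = -1)
    (ht : ∀ x i, s (i, 0) * M x (τ (i, 0)) - s (i, 1) * M x (τ (i, 1)) =
      s (i, 2) * M x (τ (i, 2)))
    {B : Finset E} (hB : SurjOn M B) {lam : E → B → ℂ}
    (hlam : ∀ x e, M x e = ∑ b, lam e b * M x b) (hBt : ∀ i, τ (i, 0) ∈ B ∧ τ (i, 1) ∈ B)
    (hgen1 : ∀ z : Fin k → ℂ, (∀ i, z i ≠ 0 ∧ z i ≠ 1) → ∀ e, ∃ x ∈ Fz M τ s z, M x e ≠ 0)
    (hgen2 : ∀ z : Fin k → ℂ, (∀ i, z i ≠ 0 ∧ z i ≠ 1) →
      ∀ e, e ∉ Set.range τ → ∀ e', e' ≠ e → ∃ x ∈ Fz M τ s z, M x e = 0 ∧ M x e' ≠ 0)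
    (hgen3 : ∀ z : Fin k → ℂ, (∀ i, z i ≠ 0 ∧ z i ≠ 1) →
      ∀ q : Fin k → ℂ, ∃ x ∈ Fz M τ s z, ∀ i, s (i, 0) * M x (τ (i, 0)) = q i)
    (h : ∃ 𝒜 : Set (Set (E → ℂˣ)), 𝒜.Finite ∧
      (∀ A ∈ 𝒜, IsSubvar A ∧ A ⊆ SM M ∧ dimT (SM M) < dimT A + finrank ℤ (rel A)) ∧
      ∀ y ∈ SM M, dimT (SM M) < finrank ℤ (rel {y}) → ∃ A ∈ 𝒜, y ∈ A) :
    ∃ S : Finset (Ideal (MvPolynomial (Fin k) ℂ)),
      (∀ P ∈ S, Pool.Agent.W206.CT.Atypical k P) ∧
        ∀ z : Fin k → ℂ, (∀ i, z i ≠ 0 ∧ z i ≠ 1) →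
          (∃ Λ : Submodule ℤ (Fin k ⊕ Fin k → ℤ), k + 1 ≤ Module.finrank ℤ Λ ∧
            ∀ a ∈ Λ, chr z a = 1) →
          ∃ P ∈ S, ∀ f ∈ P, eval z f = 0 := by
  classical
  obtain ⟨𝒜, hfin, hat, hpt⟩ := h
  have hfin' : {A | A ∈ 𝒜 ∧ ∀ a ∈ rel A, TriExp τ a}.Finite := hfin.subset fun A hA => hA.1
  refine ⟨(hfin'.image (PA τ s)).toFinset, fun P hP => ?_, fun z hz hΛ => ?_⟩
  · obtain ⟨A, ⟨hA1, hA2⟩, rfl⟩ := (Set.Finite.mem_toFinset _).1 hP
    obtain ⟨h1, h2, h3⟩ := hat A hA1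
    exact atyp_image hM hτ hs ht hB hlam hBt h1 h2 h3 hA2
  obtain ⟨Λ, hΛ1, hΛ2⟩ := hΛ
  obtain ⟨Ψ, hΨ1, hΨ2⟩ := exists_proj (Fz M τ s z)
  have hM' : ∀ e, ∃ x, (M ∘ₗ Ψ) x e ≠ 0 := by
    intro e
    obtain ⟨x, hx, hne⟩ := hgen1 z hz e
    exact ⟨x, by rw [LinearMap.comp_apply, hΨ2 x hx]; exact hne⟩
  set w := gp (M ∘ₗ Ψ) hM' with hw
  have hw0 : ∀ f : MvPolynomial E ℂ, aeval (fun e => (w e : Om V)) f = 0 ↔
      ∀ x ∈ Fz M τ s z, eval (M x) f = 0 := by
    intro f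
    rw [hw, aeval_gp]
    constructor
    · intro h x hx
      have h1 := h x
      rwa [LinearMap.comp_apply, hΨ2 x hx] at h1
    · intro h x
      exact h (Ψ x) (hΨ1 x)
  have hvan : ∀ f ∈ van (SM M), aeval (fun e => (w e : Om V)) f = 0 := by
    intro f hf
    rw [hw0]
    intro x _
    exact (mem_van_SM hM f).1 hf x
  have htw : ∀ i, algebraMap ℂ (Om V) (s (i, 0)) * w (τ (i, 0)) -
      algebraMap ℂ (Om V) (s (i, 1)) * w (τ (i, 1)) =
      algebraMap ℂ (Om V) (s (i, 2)) * w (τ (i, 2)) := by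
    intro i
    have h1 := (hw0 (C (s (i, 0)) * X (τ (i, 0)) - C (s (i, 1)) * X (τ (i, 1)) -
      C (s (i, 2)) * X (τ (i, 2)))).2 (by
        intro x _
        simp only [map_sub, map_mul, eval_C, eval_X]
        rw [ht x i, sub_self])
    simp only [map_sub, map_mul, algHom_C, aeval_X] at h1
    exact sub_eq_zero.1 h1
  have hsq : ∀ u, s u * s u = 1 := by
    intro u
    rcases hs u with h | h <;> rw [h] <;> norm_num
  have hzw : ∀ i, zt τ s (fun e => (w e : Om V)) i = algebraMap ℂ (Om V) (z i) := by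
    intro i
    have h1 := (hw0 (C (s (i, 1)) * X (τ (i, 1)) - C (z i) * (C (s (i, 0)) * X (τ (i, 0))))).2 (by
        intro x hx
        simp only [map_sub, map_mul, eval_C, eval_X]
        rw [mem_Fz.1 hx i, sub_self])
    simp only [map_sub, map_mul, algHom_C, aeval_X] at h1
    have h2 : (w (τ (i, 0)) : Om V) ≠ 0 := (w (τ (i, 0))).ne_zero
    have h3 : algebraMap ℂ (Om V) (s (i, 0)) * algebraMap ℂ (Om V) (s (i, 0)) = 1 := by
      rw [← map_mul, hsq, map_one]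
    rw [zt, map_mul]
    field_simp
    linear_combination (algebraMap ℂ (Om V) (s (i, 0))) * h1 +
      (algebraMap ℂ (Om V) (z i)) * (w (τ (i, 0)) : Om V) * h3
  -- the relations
  have hrk : k + 1 ≤ finrank ℤ (Lam w) := by
    refine le_trans hΛ1 (exists_lattice hτ hs htw Λ fun a ha => ?_)
    have h1 := hΛ2 a ha
    have h2 := congrArg (algebraMap ℂ (Om V)) h1
    rw [map_one] at h2
    rw [← h2, chr, chr, map_mul, map_prod, map_prod]
    simp only [map_zpow₀, map_sub, map_one, hzw]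
  -- the dimension
  have htd : B.card ≤ tdu ℂ w + k := by
    let R : Finset E := Finset.univ.image fun i : Fin k => τ (i, 1)
    have hRc : R.card = k := by
      rw [Finset.card_image_of_injective, Finset.card_univ, Fintype.card_fin]
      intro i j hij
      exact congrArg Prod.fst (hτ hij)
    have h0R : ∀ i, τ (i, 0) ∉ R := by
      intro i h2
      obtain ⟨j, -, hj⟩ := Finset.mem_image.1 h2
      have h3 := congrArg Prod.snd (hτ hj)
      simp at h3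
    have h1 : (B \ R).card ≤ tdu ℂ w := by
      refine card_le_tdu hM' (B \ R) fun c => ?_
      let c' : E → ℂ := fun e => if h : e ∈ B \ R then c ⟨e, h⟩ else 0
      let c'' : E → ℂ := fun e => if h : ∃ i, τ (i, 1) = e then
        s (h.choose, 1) * (z h.choose * (s (h.choose, 0) * c' (τ (h.choose, 0)))) else c' e
      obtain ⟨x, hx⟩ := hB c''
      have hx1 : ∀ b ∈ B \ R, M x b = c' b := by
        intro b hb
        rw [hx b (Finset.mem_sdiff.1 hb).1]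
        show (if h : ∃ i, τ (i, 1) = b then _ else c' b) = c' b
        rw [dif_neg]
        rintro ⟨i, rfl⟩
        exact (Finset.mem_sdiff.1 hb).2 (Finset.mem_image.2 ⟨i, Finset.mem_univ _, rfl⟩)
      have hx2 : x ∈ Fz M τ s z := by
        intro i
        have h2 : c'' (τ (i, 1)) = s (i, 1) * (z i * (s (i, 0) * c' (τ (i, 0)))) := by
          have h3 : ∃ j, τ (j, 1) = τ (i, 1) := ⟨i, rfl⟩
          have h4 : h3.choose = i := congrArg Prod.fst (hτ h3.choose_spec)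
          show (if h : ∃ j, τ (j, 1) = τ (i, 1) then _ else c' (τ (i, 1))) = _
          rw [dif_pos h3, h4]
        rw [hx _ (hBt i).2, h2, hx1 _ (Finset.mem_sdiff.2 ⟨(hBt i).1, h0R i⟩), ← mul_assoc, hsq,
          one_mul]
      refine ⟨x, fun b => ?_⟩
      rw [LinearMap.comp_apply, hΨ2 x hx2, hx1 b b.2]
      show (if h : (b : E) ∈ B \ R then c ⟨b, h⟩ else 0) = c b
      rw [dif_pos b.2]
    have h2 := Finset.le_card_sdiff R B
    omega
  -- a subvariety which contains everything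
  have hA : ∃ A ∈ 𝒜, ∀ f ∈ van A, aeval (fun e => (w e : Om V)) f = 0 := by
    by_contra hcon
    push Not at hcon
    choose! fp hfp1 hfp2 using hcon
    have hne : aeval (fun e => (w e : Om V)) (∏ A ∈ hfin.toFinset, fp A) ≠ 0 := by
      rw [map_prod]
      exact Finset.prod_ne_zero_iff.2 fun A hA => hfp2 A (hfin.mem_toFinset.1 hA)
    obtain ⟨x, hx1, hx2, hx3⟩ := Pool.Agent.Y153.UL.t_TOR Pool.Agent.Y363.UL.t_EXT ℂ (Om V) E w _
      hne
    have hx : x ∈ SM M := by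
      rw [IsClosedT.mem_iff (isClosedT_SM M)]
      intro f hf
      exact hx1 f (hvan f hf)
    have hr : dimT (SM M) < finrank ℤ (rel {x}) := by
      rw [rel_singleton, dimT_SM hM hB hlam]
      have h5 := mrk_add x
      have h6 := mrk_add w
      omega
    obtain ⟨A, hA, hxA⟩ := hpt x hx hr
    refine hx2 ?_
    rw [map_prod]
    exact Finset.prod_eq_zero (hfin.mem_toFinset.2 hA) (hfp1 A hA x hxA)
  obtain ⟨A, hA1, hA2⟩ := hA
  have htri : ∀ a ∈ rel A, TriExp τ a := by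
    intro a ha
    refine tri_of_rel hτ hs ht hz (hgen2 z hz) (hgen3 z hz) a fun x hx => ?_
    have h1 := hA2 (∏ n, X n ^ (a n).toNat - ∏ n, X n ^ (-(a n)).toNat) (by
      intro y hy
      rw [map_sub, map_prod, map_prod, sub_eq_zero]
      simp only [map_pow, eval_X]
      exact (Pool.Agent.Y388.UL.split y a).1 (ha y hy))
    have h2 := (hw0 _).1 h1 x hx
    rw [map_sub, map_prod, map_prod, sub_eq_zero] at h2
    simp only [map_pow, eval_X] at h2
    exact h2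
  refine ⟨PA τ s A, (Set.Finite.mem_toFinset _).2 ⟨A, ⟨hA1, htri⟩, rfl⟩, fun f hf => ?_⟩
  obtain ⟨g, hg1, hg2⟩ := exists_pull_van τ s f
  have h1 := (hg2 (Om V) w).1 (hA2 g ((hg1 A).1 hf))
  have h2 : zt τ s (fun e => (w e : Om V)) = fun i => algebraMap ℂ (Om V) (z i) := funext hzw
  rw [h2] at h1
  have h3 : aeval (fun i => algebraMap ℂ (Om V) (z i)) f = algebraMap ℂ (Om V) (aeval z f) := by
    rw [← aeval_algebraMap_apply]
    rfl
  rw [h3, map_eq_zero_iff _ (algebraMap ℂ (Om V)).injective] at h1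
  rw [← coe_aeval_eq_eval]
  exact h1

end Pool.Agent.Helper5.GZ
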