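import Pool.Agent.Helper5.GZ.Core

/-!
# The transfer: from the points of a linear subvariety with triangles to the powers of the line
-/

set_option autoImplicit false
set_option linter.unusedSectionVars false

namespace Pool.Agent.Helper5.GZ

open MvPolynomial Module Pool.Agent.Y645.UL
open Pool.Agent.W206.CT (chr TrGe AtypPt)

variable {V E : Type} [Fintype V] [Fintype E] {k : ℕ}

theorem exists_proj (F : Submodule ℂ (V → ℂ)) :
    ∃ Ψ : (V → ℂ) →ₗ[ℂ] (V → ℂ), (∀ x, Ψ x ∈ F) ∧ ∀ x ∈ F, Ψ x = x := by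
  obtain ⟨q, hq⟩ := F.subtype.exists_leftInverse_of_injective (Submodule.ker_subtype _)
  refine ⟨F.subtype ∘ₗ q, fun x => (q x).2, fun x hx => ?_⟩
  have h1 := LinearMap.congr_fun hq ⟨x, hx⟩
  exact congrArg Subtype.val h1

/-- the subspace where the ratios are `z` -/
def Fz (M : (V → ℂ) →ₗ[ℂ] (E → ℂ)) (τ : Fin k × Fin 3 → E) (s : Fin k × Fin 3 → ℂ)
    (z : Fin k → ℂ) : Submodule ℂ (V → ℂ) where
  carrier := {x | ∀ i, s (i, 1) * M x (τ (i, 1)) = z i * (s (i, 0) * M x (τ (i, 0)))}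
  add_mem' := by
    intro x y hx hy i
    rw [map_add, Pi.add_apply, Pi.add_apply, mul_add, mul_add, mul_add, hx i, hy i]
  zero_mem' := by
    intro i
    simp
  smul_mem' := by
    intro c x hx i
    rw [map_smul, Pi.smul_apply, Pi.smul_apply, smul_eq_mul, smul_eq_mul]
    have := hx i
    linear_combination c * this

theorem mem_Fz {M : (V → ℂ) →ₗ[ℂ] (E → ℂ)} {τ : Fin k × Fin 3 → E} {s : Fin k × Fin 3 → ℂ}
    {z : Fin k → ℂ} {x : V → ℂ} : x ∈ Fz M τ s z ↔
      ∀ i, s (i, 1) * M x (τ (i, 1)) = z i * (s (i, 0) * M x (τ (i, 0))) := Iff.rfl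

/-- the relations on the points of `Fz` -/
theorem tri_of_rel {M : (V → ℂ) →ₗ[ℂ] (E → ℂ)} {τ : Fin k × Fin 3 → E} {s : Fin k × Fin 3 → ℂ}
    (hτ : Function.Injective τ) (hs : ∀ u, s u = 1 ∨ s u = -1)
    (ht : ∀ x i, s (i, 0) * M x (τ (i, 0)) - s (i, 1) * M x (τ (i, 1)) =
      s (i, 2) * M x (τ (i, 2)))
    {z : Fin k → ℂ} (hz : ∀ i, z i ≠ 0 ∧ z i ≠ 1)
    (h2 : ∀ e, e ∉ Set.range τ → ∀ e', e' ≠ e → ∃ x ∈ Fz M τ s z, M x e = 0 ∧ M x e' ≠ 0)
    (h3 : ∀ q : Fin k → ℂ, ∃ x ∈ Fz M τ s z, ∀ i, s (i, 0) * M x (τ (i, 0)) = q i)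
    (a : E → ℤ) (ha : ∀ x ∈ Fz M τ s z, ∏ e, M x e ^ (a e).toNat = ∏ e, M x e ^ (-a e).toNat) :
    TriExp τ a := by
  classical
  have hout : ∀ e, e ∉ Set.range τ → a e = 0 := by
    intro e he
    obtain ⟨x, hx, hne⟩ := exists_avoid (Fz M τ s z ⊓ LinearMap.ker (LinearMap.proj e ∘ₗ M))
      (I := {e' : E // e' ≠ e}) (fun e' => LinearMap.proj (e' : E) ∘ₗ M) (fun e' => by
        obtain ⟨x, hx1, hx2, hx3⟩ := h2 e he e' e'.2
        exact ⟨x, ⟨hx1, hx2⟩, hx3⟩)
    have hxe : M x e = 0 := hx.2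
    have h1 := ha x hx.1
    have hprod : ∀ n : E → ℕ, (∏ e, M x e ^ n e = 0 ↔ n e ≠ 0) := by
      intro n
      rw [Finset.prod_eq_zero_iff]
      constructor
      · rintro ⟨e', -, he'⟩ h0
        by_cases hee : e' = e
        · rw [hee, h0, pow_zero] at he'
          exact one_ne_zero he'
        · exact absurd he' (pow_ne_zero _ (hne ⟨e', hee⟩))
      · intro h0
        exact ⟨e, Finset.mem_univ _, by rw [hxe, zero_pow h0]⟩
    by_contra h0
    rcases lt_or_gt_of_ne h0 with hlt | hgt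
    · have h4 := (hprod (fun e => (-a e).toNat)).2 (by omega)
      rw [← h1] at h4
      have h5 := (hprod (fun e => (a e).toNat)).1 h4
      omega
    · have h4 := (hprod (fun e => (a e).toNat)).2 (by omega)
      rw [h1] at h4
      have h5 := (hprod (fun e => (-a e).toNat)).1 h4
      omega
  refine ⟨hout, fun i => ?_⟩
  -- the values on the triangles
  have hval : ∀ q : Fin k → ℂ, (∀ i, q i ≠ 0) → ∀ x ∈ Fz M τ s z,
      (∀ i, s (i, 0) * M x (τ (i, 0)) = q i) →
      (∀ u, M x (τ u) = (![s (u.1, 0), s (u.1, 1) * z u.1, s (u.1, 2) * (1 - z u.1)] u.2) *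
        q u.1) := by
    intro q hq x hx hxq u
    obtain ⟨i, j⟩ := u
    have e0 := hxq i
    have e1 := (mem_Fz.1 hx) i
    have e2 := ht x i
    have hsq : ∀ j, s (i, j) * s (i, j) = 1 := by
      intro j
      rcases hs (i, j) with h | h <;> rw [h] <;> norm_num
    rw [e0] at e1 e2
    fin_cases j
    · show M x (τ (i, 0)) = s (i, 0) * q i
      rw [← e0, ← mul_assoc, hsq, one_mul]
    · show M x (τ (i, 1)) = (s (i, 1) * z i) * q i
      rw [mul_assoc, ← e1, ← mul_assoc, hsq, one_mul]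
    · show M x (τ (i, 2)) = (s (i, 2) * (1 - z i)) * q i
      rw [e1] at e2
      have := hsq 2
      linear_combination (-M x (τ (i, 2))) * this - s (i, 2) * e2
  have hne : ∀ u : Fin k × Fin 3,
      (![s (u.1, 0), s (u.1, 1) * z u.1, s (u.1, 2) * (1 - z u.1)] u.2) ≠ 0 := by
    rintro ⟨i, j⟩
    have hs0 : ∀ j, s (i, j) ≠ 0 := by
      intro j
      rcases hs (i, j) with h | h <;> rw [h] <;> norm_num
    fin_cases j
    · exact hs0 0
    · exact mul_ne_zero (hs0 1) (hz i).1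
    · exact mul_ne_zero (hs0 2) (sub_ne_zero.2 (hz i).2.symm)
  have hP : ∀ q : Fin k → ℂ, (∀ i, q i ≠ 0) →
      ∏ u : Fin k × Fin 3, ((![s (u.1, 0), s (u.1, 1) * z u.1, s (u.1, 2) * (1 - z u.1)] u.2) *
        q u.1) ^ a (τ u) = 1 := by
    intro q hq
    obtain ⟨x, hx, hxq⟩ := h3 q
    have h1 := ha x hx
    have hv := hval q hq x hx hxq
    have e1 : ∀ n : E → ℕ, (∀ e, e ∉ Set.range τ → n e = 0) →
        ∏ e, M x e ^ n e = ∏ u, M x (τ u) ^ n (τ u) := by
      intro n hn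
      refine (Fintype.prod_of_injective τ hτ _ _ (fun e he => ?_) fun u => rfl).symm
      rw [hn e he, pow_zero]
    rw [e1 _ (fun e he => by rw [hout e he]; rfl), e1 _ (fun e he => by rw [hout e he]; rfl)] at h1
    have e2 : ∀ u, M x (τ u) ≠ 0 := by
      intro u
      rw [hv u]
      exact mul_ne_zero (hne u) (hq u.1)
    have e3 : ∀ u, M x (τ u) ^ a (τ u) =
        M x (τ u) ^ (a (τ u)).toNat / M x (τ u) ^ (-a (τ u)).toNat := by
      intro u
      rw [← zpow_natCast, ← zpow_natCast, ← zpow_sub₀ (e2 u), Int.toNat_sub_toNat_neg]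
    calc ∏ u : Fin k × Fin 3, ((![s (u.1, 0), s (u.1, 1) * z u.1, s (u.1, 2) * (1 - z u.1)] u.2) *
        q u.1) ^ a (τ u) = ∏ u, M x (τ u) ^ a (τ u) :=
          Finset.prod_congr rfl fun u _ => by rw [hv u]
      _ = ∏ u, M x (τ u) ^ (a (τ u)).toNat / M x (τ u) ^ (-a (τ u)).toNat :=
          Finset.prod_congr rfl fun u _ => e3 u
      _ = 1 := by
          rw [Finset.prod_div_distrib, h1, div_self]
          exact Finset.prod_ne_zero_iff.2 fun u _ => pow_ne_zero _ (e2 u)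
  have h4 := hP (fun _ => 1) (fun _ => one_ne_zero)
  have h5 := hP (Function.update (fun _ => 1) i 2) (fun j => by
    rw [Function.update_apply]
    split_ifs <;> norm_num)
  simp only [mul_zpow] at h4 h5
  rw [Finset.prod_mul_distrib] at h4 h5
  simp only [one_zpow, Finset.prod_const_one, mul_one] at h4
  rw [h4, one_mul, Fintype.prod_prod_type, Finset.prod_eq_single i] at h5
  · rw [Fin.prod_univ_three] at h5
    simp only [Function.update_self] at h5
    rw [← zpow_add₀ (by norm_num), ← zpow_add₀ (by norm_num)] at h5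
    have h6 : ((2 : ℝ) : ℂ) ^ (a (τ (i, 0)) + a (τ (i, 1)) + a (τ (i, 2))) = ((1 : ℝ) : ℂ) := by
      push_cast
      exact h5
    have h7 : (2 : ℝ) ^ (a (τ (i, 0)) + a (τ (i, 1)) + a (τ (i, 2))) = 1 := by
      exact_mod_cast h6
    have h8 : (2 : ℝ) ^ (a (τ (i, 0)) + a (τ (i, 1)) + a (τ (i, 2))) = (2 : ℝ) ^ (0 : ℤ) := by
      rw [h7, zpow_zero]
    exact zpow_right_injective₀ (by norm_num) (by norm_num) h8
  · intro j _ hj
    refine Finset.prod_eq_one fun l _ => ?_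
    simp [Function.update_of_ne hj]
  · intro h
    exact absurd (Finset.mem_univ i) h

end Pool.Agent.Helper5.GZ
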