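import Pool.Agent.Helper5.GZ.LinB
import Pool.Graph.R_pool_sql_team_seeded_f72693b1.W206.CT.Fin
import Pool.Graph.R_pool_sql_team_seeded_1acbe0a2.Y331.UL.Pair

/-!
# Triangles: the ratios of three coordinates with sum zero
-/

set_option autoImplicit false
set_option linter.unusedSectionVars false

namespace Pool.Agent.Helper5.GZ

open MvPolynomial Module Pool.Agent.Y645.UL
open Pool.Agent.W206.CT (chr TrGe AtypPt)

variable {V E : Type} [Fintype V] [Fintype E] {k : ℕ}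

/-- the ratios of the first two coordinates of the triangles -/
noncomputable def zt {K : Type} [Field K] [Algebra ℂ K] (τ : Fin k × Fin 3 → E)
    (s : Fin k × Fin 3 → ℂ) (y : E → K) (i : Fin k) : K :=
  algebraMap ℂ K (s (i, 1) * s (i, 0)) * (y (τ (i, 1)) / y (τ (i, 0)))

section ratio

variable {K : Type} [Field K] [Algebra ℂ K] {τ : Fin k × Fin 3 → E} {s : Fin k × Fin 3 → ℂ}

theorem one_sub_zt (hs : ∀ u, s u = 1 ∨ s u = -1) {y : E → K} (hy : ∀ e, y e ≠ 0) {i : Fin k}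
    (ht : algebraMap ℂ K (s (i, 0)) * y (τ (i, 0)) - algebraMap ℂ K (s (i, 1)) * y (τ (i, 1)) =
      algebraMap ℂ K (s (i, 2)) * y (τ (i, 2))) :
    1 - zt τ s y i = algebraMap ℂ K (s (i, 2) * s (i, 0)) * (y (τ (i, 2)) / y (τ (i, 0))) := by
  have h0 := hy (τ (i, 0))
  have h1 : algebraMap ℂ K (s (i, 0)) * algebraMap ℂ K (s (i, 0)) = 1 := by
    rw [← map_mul]
    rcases hs (i, 0) with h | h <;> rw [h] <;> norm_num
  rw [zt, map_mul, map_mul]
  field_simp
  linear_combination (algebraMap ℂ K (s (i, 0))) * ht - y (τ (i, 0)) * h1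

theorem sq_of_sign {c d : ℂ} (hc : c = 1 ∨ c = -1) (hd : d = 1 ∨ d = -1) :
    (algebraMap ℂ K (c * d)) ^ 2 = 1 := by
  rw [← map_pow]
  rcases hc with rfl | rfl <;> rcases hd with rfl | rfl <;> norm_num

/-- a homogeneous monomial in the coordinates of the triangles -/
theorem monomial_sq (hs : ∀ u, s u = 1 ∨ s u = -1) {y : E → K} (hy : ∀ e, y e ≠ 0)
    (ht : ∀ i, algebraMap ℂ K (s (i, 0)) * y (τ (i, 0)) -
      algebraMap ℂ K (s (i, 1)) * y (τ (i, 1)) = algebraMap ℂ K (s (i, 2)) * y (τ (i, 2)))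
    (a : Fin k × Fin 3 → ℤ) (ha : ∀ i, a (i, 0) + a (i, 1) + a (i, 2) = 0) :
    (∏ u, y (τ u) ^ a u) ^ 2 = (∏ i, zt τ s y i ^ (2 * a (i, 1))) *
      ∏ i, (1 - zt τ s y i) ^ (2 * a (i, 2)) := by
  rw [Fintype.prod_prod_type, ← Finset.prod_pow, ← Finset.prod_mul_distrib]
  refine Finset.prod_congr rfl fun i _ => ?_
  rw [Fin.prod_univ_three, one_sub_zt hs hy (ht i), zpow_mul, zpow_mul, zt]
  have e1 : (algebraMap ℂ K (s (i, 1) * s (i, 0)) * (y (τ (i, 1)) / y (τ (i, 0)))) ^ (2 : ℤ) =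
      y (τ (i, 1)) ^ (2 : ℤ) / y (τ (i, 0)) ^ (2 : ℤ) := by
    rw [mul_zpow, div_zpow, zpow_ofNat, sq_of_sign (hs _) (hs _), one_mul]
  have e2 : (algebraMap ℂ K (s (i, 2) * s (i, 0)) * (y (τ (i, 2)) / y (τ (i, 0)))) ^ (2 : ℤ) =
      y (τ (i, 2)) ^ (2 : ℤ) / y (τ (i, 0)) ^ (2 : ℤ) := by
    rw [mul_zpow, div_zpow, zpow_ofNat, sq_of_sign (hs _) (hs _), one_mul]
  rw [e1, e2, div_zpow, div_zpow]
  have h3 : a (i, 0) = -a (i, 1) - a (i, 2) := by linarith [ha i]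
  have h0 := hy (τ (i, 0))
  rw [h3, zpow_sub₀ h0, zpow_neg]
  have e3 : ∀ z : K, ∀ n : ℤ, (z ^ (2 : ℤ)) ^ n = (z ^ n) ^ 2 := by
    intro z n
    rw [← zpow_mul, mul_comm, zpow_mul]
    norm_cast
  rw [e3, e3, e3, e3]
  have h4 : y (τ (i, 0)) ^ a (i, 1) ≠ 0 := zpow_ne_zero _ h0
  have h5 : y (τ (i, 0)) ^ a (i, 2) ≠ 0 := zpow_ne_zero _ h0
  field_simp

theorem zt_ne (hs : ∀ u, s u = 1 ∨ s u = -1) {y : E → K} (hy : ∀ e, y e ≠ 0) {i : Fin k}
    (ht : algebraMap ℂ K (s (i, 0)) * y (τ (i, 0)) - algebraMap ℂ K (s (i, 1)) * y (τ (i, 1)) =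
      algebraMap ℂ K (s (i, 2)) * y (τ (i, 2))) : zt τ s y i ≠ 0 ∧ zt τ s y i ≠ 1 := by
  have hne : ∀ c d : ℂ, (c = 1 ∨ c = -1) → (d = 1 ∨ d = -1) → algebraMap ℂ K (c * d) ≠ 0 := by
    intro c d hc hd h
    have h1 := sq_of_sign (K := K) hc hd
    rw [h] at h1
    norm_num at h1
  constructor
  · exact mul_ne_zero (hne _ _ (hs _) (hs _)) (div_ne_zero (hy _) (hy _))
  · intro h
    have h1 := one_sub_zt hs hy ht
    rw [h, sub_self] at h1
    exact mul_ne_zero (hne _ _ (hs _) (hs _)) (div_ne_zero (hy _) (hy _)) h1.symm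

end ratio

/-- the exponent vector is supported on the triangles, with sum zero on every triangle -/
def TriExp (τ : Fin k × Fin 3 → E) (a : E → ℤ) : Prop :=
  (∀ e, e ∉ Set.range τ → a e = 0) ∧ ∀ i, a (τ (i, 0)) + a (τ (i, 1)) + a (τ (i, 2)) = 0

theorem prod_tri {G : Type} [CommGroup G] {τ : Fin k × Fin 3 → E} (hτ : Function.Injective τ)
    {a : E → ℤ} (ha : TriExp τ a) (y : E → G) : ∏ e, y e ^ a e = ∏ u, y (τ u) ^ a (τ u) := by
  refine (Fintype.prod_of_injective τ hτ _ _ (fun e he => ?_) fun u => rfl).symm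
  rw [ha.1 e he, zpow_zero]

/-- the exponents of the ratios -/
def psiE (τ : Fin k × Fin 3 → E) : (E → ℤ) →ₗ[ℤ] (Fin k ⊕ Fin k → ℤ) where
  toFun a := Sum.elim (fun i => 2 * a (τ (i, 1))) (fun i => 2 * a (τ (i, 2)))
  map_add' a b := by
    funext t
    rcases t with i | i <;> simp [mul_add]
  map_smul' c a := by
    funext t
    rcases t with i | i <;> simp <;> ring

theorem psiE_inl (τ : Fin k × Fin 3 → E) (a : E → ℤ) (i : Fin k) :
    psiE τ a (Sum.inl i) = 2 * a (τ (i, 1)) := rfl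

theorem psiE_inr (τ : Fin k × Fin 3 → E) (a : E → ℤ) (i : Fin k) :
    psiE τ a (Sum.inr i) = 2 * a (τ (i, 2)) := rfl

theorem psiE_inj {τ : Fin k × Fin 3 → E} {a : E → ℤ} (ha : TriExp τ a) (h : psiE τ a = 0) :
    a = 0 := by
  funext e
  by_cases he : e ∈ Set.range τ
  · obtain ⟨⟨i, j⟩, rfl⟩ := he
    have h1 := congrFun h (Sum.inl i)
    have h2 := congrFun h (Sum.inr i)
    rw [psiE_inl, Pi.zero_apply] at h1
    rw [psiE_inr, Pi.zero_apply] at h2
    have h3 := ha.2 i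
    show a (τ (i, j)) = 0
    fin_cases j
    · show a (τ (i, 0)) = 0
      omega
    · show a (τ (i, 1)) = 0
      omega
    · show a (τ (i, 2)) = 0
      omega
  · exact ha.1 e he

/-- the relations between the ratios -/
theorem chr_psiE {K : Type} [Field K] [Algebra ℂ K] {τ : Fin k × Fin 3 → E}
    {s : Fin k × Fin 3 → ℂ} (hτ : Function.Injective τ) (hs : ∀ u, s u = 1 ∨ s u = -1)
    {y : E → Kˣ} (ht : ∀ i, algebraMap ℂ K (s (i, 0)) * y (τ (i, 0)) -
      algebraMap ℂ K (s (i, 1)) * y (τ (i, 1)) = algebraMap ℂ K (s (i, 2)) * y (τ (i, 2)))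
    {a : E → ℤ} (ha : TriExp τ a) (h1 : a ∈ Lam y) :
    chr (zt τ s (fun e => (y e : K))) (psiE τ a) = 1 := by
  rw [chr]
  simp only [psiE_inl, psiE_inr]
  rw [← monomial_sq (τ := τ) (s := s) hs (y := fun e => (y e : K)) (fun e => (y e).ne_zero) ht
    (fun u => a (τ u)) ha.2]
  rw [mem_Lam, prod_tri hτ ha] at h1
  have h2 := congrArg Units.val h1
  push_cast at h2
  rw [h2, one_pow]

/-- the exponents of the coordinates of the triangles -/
def gE : (Fin k ⊕ Fin k → ℤ) →ₗ[ℤ] (Fin k × Fin 3 → ℤ) where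
  toFun a u := ![-(a (Sum.inl u.1) + a (Sum.inr u.1)), a (Sum.inl u.1), a (Sum.inr u.1)] u.2
  map_add' a b := by
    funext ⟨i, j⟩
    fin_cases j <;> simp <;> ring
  map_smul' c a := by
    funext ⟨i, j⟩
    fin_cases j <;> simp
    ring

/-- a relation of the ratios gives a relation of the coordinates of the triangles -/
theorem exists_lattice {K : Type} [Field K] [Algebra ℂ K] {τ : Fin k × Fin 3 → E}
    {s : Fin k × Fin 3 → ℂ} (hτ : Function.Injective τ) (hs : ∀ u, s u = 1 ∨ s u = -1)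
    {y : E → Kˣ} (ht : ∀ i, algebraMap ℂ K (s (i, 0)) * y (τ (i, 0)) -
      algebraMap ℂ K (s (i, 1)) * y (τ (i, 1)) = algebraMap ℂ K (s (i, 2)) * y (τ (i, 2)))
    (Λ : Submodule ℤ (Fin k ⊕ Fin k → ℤ))
    (hΛ : ∀ a ∈ Λ, chr (zt τ s (fun e => (y e : K))) a = 1) :
    finrank ℤ Λ ≤ finrank ℤ (Lam y) := by
  classical
  let θ : (Fin k ⊕ Fin k → ℤ) →ₗ[ℤ] (E → ℤ) :=
    (2 : ℤ) • ((Pool.Agent.W206.CT.KLx.ex τ).comp gE)
  have hθ : ∀ a e, θ a e = 2 * Pool.Agent.W206.CT.KLx.ex τ (gE a) e := fun a e => rfl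
  have hin : ∀ a u, Pool.Agent.W206.CT.KLx.ex τ (gE a) (τ u) = gE a u := fun a u =>
    Pool.Agent.W206.CT.KLx.ex_apply hτ _ _
  have hout : ∀ a e, e ∉ Set.range τ → Pool.Agent.W206.CT.KLx.ex τ (gE a) e = 0 :=
    fun a e he => Pool.Agent.W206.CT.KLx.ex_apply' _ he
  have hinj : Function.Injective θ := by
    rw [injective_iff_map_eq_zero]
    intro a ha
    have h1 : ∀ u, gE a u = 0 := by
      intro u
      have h2 := congrFun ha (τ u)
      rw [hθ, hin, Pi.zero_apply] at h2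
      omega
    funext t
    rcases t with i | i
    · exact h1 (i, 1)
    · exact h1 (i, 2)
  have hmap : Λ.map θ ≤ Lam y := by
    rintro _ ⟨a, ha, rfl⟩
    have h1 : TriExp τ (Pool.Agent.W206.CT.KLx.ex τ (gE a)) := by
      refine ⟨hout a, fun i => ?_⟩
      rw [hin, hin, hin]
      show -(a (Sum.inl i) + a (Sum.inr i)) + a (Sum.inl i) + a (Sum.inr i) = 0
      ring
    have h2 := monomial_sq (τ := τ) (s := s) hs (y := fun e => (y e : K))
      (fun e => (y e).ne_zero) ht (gE a) (fun i => by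
        show -(a (Sum.inl i) + a (Sum.inr i)) + a (Sum.inl i) + a (Sum.inr i) = 0
        ring)
    have h3 : (∏ i, zt τ s (fun e => (y e : K)) i ^ (2 * gE a (i, 1))) *
      ∏ i, (1 - zt τ s (fun e => (y e : K)) i) ^ (2 * gE a (i, 2)) = 1 := by
      have h4 := hΛ a ha
      rw [chr] at h4
      have h5 : ∀ i, gE a (i, 1) = a (Sum.inl i) := fun i => rfl
      have h6 : ∀ i, gE a (i, 2) = a (Sum.inr i) := fun i => rfl
      simp only [h5, h6, mul_comm (2 : ℤ), zpow_mul]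
      rw [Finset.prod_zpow, Finset.prod_zpow, ← mul_zpow, h4, one_zpow]
    rw [h3] at h2
    rw [mem_Lam]
    have h7 : ∏ e, y e ^ θ a e = (∏ e, y e ^ Pool.Agent.W206.CT.KLx.ex τ (gE a) e) ^ 2 := by
      rw [← Finset.prod_pow]
      refine Finset.prod_congr rfl fun e _ => ?_
      rw [hθ, mul_comm, zpow_mul]
      norm_cast
    rw [h7, prod_tri hτ h1]
    apply Units.ext
    push_cast
    simp only [hin]
    exact h2
  have h8 : finrank ℤ (Λ.map θ) = finrank ℤ Λ :=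
    (Submodule.equivMapOfInjective θ hinj Λ).finrank_eq.symm
  rw [← h8]
  exact Submodule.finrank_mono hmap

end Pool.Agent.Helper5.GZ
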